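import Mathlib

/-!
# A rank extractor: polynomial relations between the dilates of the elements of a subspace

If `T` is a space of polynomials over a field `K`, of dimension at least `card σ`, and `e i`
(`i : σ`) are different positive integers, then there is no nontrivial relation
`∑ a_i τ(z ^ e_i) = 0`, `a_i ∈ K[z]`, which holds for all `τ ∈ T`.
-/

set_option autoImplicit false

namespace Pool.Agent.J6H7.PIT

open Polynomial Finset

variable {K : Type*} [Field K]

/-- the degrees of the nonzero elements -/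
noncomputable def degs (T : Submodule K K[X]) (k : ℕ) : Finset ℕ := by
  classical
  exact (range k).filter (fun d => ∃ τ ∈ T, τ ≠ 0 ∧ τ.natDegree = d)

lemma mem_degs {T : Submodule K K[X]} {k d : ℕ} :
    d ∈ degs T k ↔ d < k ∧ ∃ τ ∈ T, τ ≠ 0 ∧ τ.natDegree = d := by
  classical
  simp [degs]

lemma finrank_le_degs {T : Submodule K K[X]} {k : ℕ} (hT : T ≤ degreeLT K k) :
    Module.finrank K T ≤ (degs T k).card := by
  classical
  let φ : T →ₗ[K] ((degs T k) → K) :=
    { toFun := fun τ d => (τ : K[X]).coeff d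
      map_add' := fun a b => by ext d; simp
      map_smul' := fun c a => by ext d; simp }
  have hinj : Function.Injective φ := by
    rw [← LinearMap.ker_eq_bot, LinearMap.ker_eq_bot']
    intro τ hτ
    by_contra hne
    have hne' : (τ : K[X]) ≠ 0 := fun h => hne (Subtype.ext h)
    have hdeg : (τ : K[X]).natDegree < k := by
      have := mem_degreeLT.1 (hT τ.2)
      exact (natDegree_lt_iff_degree_lt hne').2 this
    have hmem : (τ : K[X]).natDegree ∈ degs T k :=
      mem_degs.2 ⟨hdeg, τ, τ.2, hne', rfl⟩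
    have h1 := congrFun hτ ⟨_, hmem⟩
    have h2 : (τ : K[X]).leadingCoeff = 0 := h1
    exact hne' (leadingCoeff_eq_zero.1 h2)
  have h := LinearMap.finrank_le_finrank_of_injective hinj
  simpa using h

/-- in a relation the maximum of the degrees is attained twice -/
lemma two_attain {σ : Type*} [Fintype σ] (e : σ → ℕ) (he : ∀ i, 0 < e i) (a : σ → K[X])
    (τ : K[X]) (hτ : τ ≠ 0) (h : ∑ i, a i * expand K (e i) τ = 0) (i : σ) (hi : a i ≠ 0)
    (hmax : ∀ j, a j ≠ 0 → (a j).natDegree + e j * τ.natDegree ≤
      (a i).natDegree + e i * τ.natDegree) :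
    ∃ j, j ≠ i ∧ a j ≠ 0 ∧
      (a j).natDegree + e j * τ.natDegree = (a i).natDegree + e i * τ.natDegree := by
  classical
  by_contra hcon
  push Not at hcon
  set M := (a i).natDegree + e i * τ.natDegree with hM
  have hexp : ∀ j, (expand K (e j) τ).natDegree = e j * τ.natDegree := fun j => by
    rw [natDegree_expand, mul_comm]
  have hexp0 : ∀ j, expand K (e j) τ ≠ 0 := fun j => by
    rwa [Ne, expand_eq_zero (he j)]
  have h1 : ∀ j, j ≠ i → (a j * expand K (e j) τ).coeff M = 0 := by
    intro j hj
    by_cases hj0 : a j = 0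
    · rw [hj0, zero_mul, coeff_zero]
    · apply coeff_eq_zero_of_natDegree_lt
      rw [natDegree_mul hj0 (hexp0 j), hexp]
      exact lt_of_le_of_ne (hmax j hj0) (hcon j hj hj0)
  have h2 : (a i * expand K (e i) τ).coeff M ≠ 0 := by
    have h3 : M = (a i * expand K (e i) τ).natDegree := by
      rw [natDegree_mul hi (hexp0 i), hexp]
    rw [h3]
    exact leadingCoeff_ne_zero.2 (mul_ne_zero hi (hexp0 i))
  have h4 := congrArg (fun p => coeff p M) h
  simp only [finsetSum_coeff, coeff_zero] at h4
  rw [Finset.sum_eq_single i (fun j _ hj => h1 j hj) (fun h => absurd (mem_univ i) h)] at h4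
  exact h2 h4

/-- **Rank extractor.** -/
theorem trop {σ : Type*} [Fintype σ] (e : σ → ℕ) (he : ∀ i, 0 < e i)
    (hinj : Function.Injective e) (a : σ → K[X]) (T : Submodule K K[X]) (k : ℕ)
    (hT : T ≤ degreeLT K k) (hc : Fintype.card σ ≤ Module.finrank K T)
    (h : ∀ τ ∈ T, ∑ i, a i * expand K (e i) τ = 0) : ∀ i, a i = 0 := by
  classical
  by_contra hcon
  push Not at hcon
  obtain ⟨i₀, hi₀⟩ := hcon
  -- the support
  set I : Finset σ := univ.filter (fun i => a i ≠ 0) with hI
  have hIne : I.Nonempty := ⟨i₀, by simp [hI, hi₀]⟩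
  have hmemI : ∀ i, i ∈ I ↔ a i ≠ 0 := fun i => by simp [hI]
  -- for every degree the maximum
  let w : ℕ → σ → ℕ := fun d i => (a i).natDegree + e i * d
  -- attained set
  let At : ℕ → Finset σ := fun d => I.filter (fun i => ∀ j ∈ I, w d j ≤ w d i)
  have hAt_ne : ∀ d, (At d).Nonempty := by
    intro d
    obtain ⟨i, hi, hmax⟩ := exists_max_image I (w d) hIne
    exact ⟨i, by simp only [At, mem_filter]; exact ⟨hi, hmax⟩⟩
  -- smallest exponent in At d
  have hmin : ∀ d, ∃ i ∈ At d, ∀ j ∈ At d, e i ≤ e j := fun d => exists_min_image (At d) e (hAt_ne d)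
  choose m hm1 hm2 using hmin
  -- the largest exponent in I
  obtain ⟨M, hM1, hM2⟩ := exists_max_image I e hIne
  have hbig : ∀ d ∈ degs T k, ∃ j ∈ At d, e (m d) < e j := by
    intro d hd
    obtain ⟨_, τ, hτT, hτ0, hτd⟩ := mem_degs.1 hd
    have h1 := hm1 d
    simp only [At, mem_filter] at h1
    obtain ⟨j, hj1, hj2, hj3⟩ := two_attain e he a τ hτ0 (h τ hτT) (m d) ((hmemI _).1 h1.1)
      (fun j hj => by
        have := h1.2 j ((hmemI j).2 hj)
        simpa [w, hτd] using this)
    have hjI : j ∈ I := (hmemI j).2 hj2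
    have hjAt : j ∈ At d := by
      simp only [At, mem_filter]
      refine ⟨hjI, fun j' hj' => ?_⟩
      have h4 := h1.2 j' hj'
      have h5 : w d j = w d (m d) := by simpa [w, hτd] using hj3
      rw [h5]; exact h4
    refine ⟨j, hjAt, lt_of_le_of_ne (hm2 d j hjAt) fun h => hj1 (hinj h).symm⟩
  -- monotonicity
  have hmono : ∀ d d', d < d' → ∀ i ∈ At d, ∀ j ∈ At d', e i ≤ e j := by
    intro d d' hdd i hi j hj
    simp only [At, mem_filter] at hi hj
    have h1 := hi.2 j hj.1
    have h2 := hj.2 i hi.1
    simp only [w] at h1 h2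
    by_contra hlt
    push Not at hlt
    obtain ⟨x, hx⟩ := Nat.exists_eq_add_of_lt hlt
    obtain ⟨y, hy⟩ := Nat.exists_eq_add_of_lt hdd
    rw [hx, hy] at h2
    rw [hx] at h1
    nlinarith
  -- `m` is an injection into `I.erase M`
  have hle : (degs T k).card ≤ (I.erase M).card := by
    apply card_le_card_of_injOn m
    · intro d hd
      have hd' : d ∈ degs T k := hd
      obtain ⟨j, hj, hlt⟩ := hbig d hd'
      have h1 := hm1 d
      simp only [At, mem_filter] at h1 hj
      have h2 := hM2 j hj.1
      have hne : m d ≠ M := fun h => by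
        rw [h] at hlt
        omega
      simp only [coe_erase, Set.mem_sdiff, mem_coe, Set.mem_singleton_iff]
      exact ⟨h1.1, hne⟩
    · intro d hd d' hd' hdd
      by_contra hne
      rcases lt_or_gt_of_ne hne with hlt | hlt
      · obtain ⟨j, hj, hjlt⟩ := hbig d hd
        have := hmono d d' hlt j hj (m d') (hm1 d')
        rw [← hdd] at this
        omega
      · obtain ⟨j, hj, hjlt⟩ := hbig d' hd'
        have := hmono d' d hlt j hj (m d) (hm1 d)
        rw [hdd] at this
        omega
  have h1 := finrank_le_degs hT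
  have h2 : (I.erase M).card < I.card := card_erase_lt_of_mem hM1
  have h3 : I.card ≤ Fintype.card σ := card_le_univ I
  omega

end Pool.Agent.J6H7.PIT
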