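import Mathlib
import Pool.Agent.J6H7.PIT.Trop

/-!
# The shared seed: a polynomial map which preserves nonzero polynomials with few coefficients

`A` is a domain of characteristic zero, `y_l ∈ A` (`l < k`) are elements with derivations
`D_l y_m = δ_lm`, `B` a subring such that the gradients `(D_l e)_l` of its elements `e` lie in the
span of `card τ` fixed vectors. Then the polynomials `∑_l y_l z ^ (e_i l)` (`i : σ`,
`card σ + card τ ≤ k`) are algebraically independent over `B`.
-/

set_option autoImplicit false

namespace Pool.Agent.J6H7.PIT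

open Polynomial Finset

section

variable {A : Type*} [CommRing A]

/-- the coefficientwise derivation -/
noncomputable def dc (d : Derivation ℤ A A) : Derivation ℤ A[X] A[X] :=
  PolynomialModule.equivPolynomialSelf.compDer d.mapCoeffs

lemma dc_coeff (d : Derivation ℤ A A) (p : A[X]) (n : ℕ) : (dc d p).coeff n = d (p.coeff n) := by
  have h : (dc d p).coeff n = (d.mapCoeffs p).coeff n := rfl
  rw [h, Derivation.mapCoeffs_apply]

lemma dc_C (d : Derivation ℤ A A) (a : A) : dc d (C a) = C (d a) := by
  ext n
  rw [dc_coeff, coeff_C, coeff_C]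
  split_ifs
  · rfl
  · exact map_zero d

lemma dc_X_pow (d : Derivation ℤ A A) (m : ℕ) : dc d (X ^ m : A[X]) = 0 := by
  ext n
  rw [dc_coeff, coeff_X_pow, coeff_zero]
  split_ifs
  · exact d.map_one_eq_zero
  · exact map_zero d

/-- the map with the shared seed `y` -/
noncomputable def gen {k : ℕ} (y : Fin k → A) (n : ℕ) : A[X] :=
  ∑ l : Fin k, C (y l) * X ^ (n * (l : ℕ))

lemma dc_gen {k : ℕ} (D : Fin k → Derivation ℤ A A) (y : Fin k → A)
    (hDy : ∀ l m, D l (y m) = if l = m then 1 else 0) (n : ℕ) (l : Fin k) :
    dc (D l) (gen y n) = X ^ (n * (l : ℕ)) := by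
  classical
  unfold gen
  rw [map_sum, Finset.sum_eq_single l]
  · rw [Derivation.leibniz, dc_X_pow, dc_C, hDy, if_pos rfl]
    simp
  · intro m _ hm
    rw [Derivation.leibniz, dc_X_pow, dc_C, hDy, if_neg (Ne.symm hm)]
    simp
  · intro h
    exact absurd (mem_univ l) h

variable {σ τ : Type*} [Fintype σ] [Fintype τ]

/-- chain rule -/
lemma chain (B : Subring A) {k : ℕ} (D : Fin k → Derivation ℤ A A) (y : Fin k → A)
    (hDy : ∀ l m, D l (y m) = if l = m then 1 else 0) (H : τ → Fin k → A)
    (hB : ∀ e ∈ B, ∃ c : τ → A, ∀ l, D l e = ∑ b, c b * H b l) (e : σ → ℕ)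
    (f : MvPolynomial σ B) : ∃ w : τ → A[X], ∀ l : Fin k,
      dc (D l) (MvPolynomial.aeval (fun i => gen y (e i)) f) =
        ∑ i, MvPolynomial.aeval (fun i => gen y (e i)) (MvPolynomial.pderiv i f) *
          X ^ (e i * (l : ℕ)) + ∑ b, w b * C (H b l) := by
  classical
  induction f using MvPolynomial.induction_on with
  | C c =>
    obtain ⟨v, hv⟩ := hB c c.2
    refine ⟨fun b => C (v b), fun l => ?_⟩
    have h1 : MvPolynomial.aeval (fun i => gen y (e i)) (MvPolynomial.C c : MvPolynomial σ B) =
        C (c : A) := by
      rw [MvPolynomial.aeval_C]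
      rfl
    rw [h1, dc_C, hv l]
    simp [map_sum]
  | add p q hp hq =>
    obtain ⟨w1, h1⟩ := hp
    obtain ⟨w2, h2⟩ := hq
    refine ⟨fun b => w1 b + w2 b, fun l => ?_⟩
    rw [map_add, map_add, h1 l, h2 l]
    simp only [map_add, add_mul, Finset.sum_add_distrib]
    ring
  | mul_X p j hp =>
    obtain ⟨w, h⟩ := hp
    refine ⟨fun b => gen y (e j) * w b, fun l => ?_⟩
    rw [map_mul, MvPolynomial.aeval_X, Derivation.leibniz, h l, dc_gen D y hDy]
    have h2 : ∀ i, MvPolynomial.aeval (fun i => gen y (e i))
        (MvPolynomial.pderiv i (p * MvPolynomial.X j)) =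
        MvPolynomial.aeval (fun i => gen y (e i)) (MvPolynomial.pderiv i p) * gen y (e j) +
          (if i = j then MvPolynomial.aeval (fun i => gen y (e i)) p else 0) := by
      intro i
      rw [MvPolynomial.pderiv_mul, map_add, map_mul, map_mul, MvPolynomial.aeval_X,
        MvPolynomial.pderiv_X]
      congr 1
      by_cases hij : i = j
      · subst hij
        simp
      · have : (Pi.single i 1 : σ → MvPolynomial σ B) j = 0 := by
          rw [Pi.single_eq_of_ne (Ne.symm hij)]
        rw [this, if_neg hij]
        simp
    simp only [h2, add_mul, Finset.sum_add_distrib, smul_eq_mul, mul_add, Finset.mul_sum,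
      ite_mul, zero_mul, Finset.sum_ite_eq', Finset.mem_univ, if_true]
    have h3 : ∀ i, gen y (e j) * (MvPolynomial.aeval (fun i => gen y (e i))
        (MvPolynomial.pderiv i p) * X ^ (e i * (l : ℕ))) =
        MvPolynomial.aeval (fun i => gen y (e i)) (MvPolynomial.pderiv i p) * gen y (e j) *
          X ^ (e i * (l : ℕ)) := fun i => by ring
    have h4 : ∀ b, gen y (e j) * (w b * C (H b l)) = gen y (e j) * w b * C (H b l) :=
      fun b => by ring
    simp only [h3, h4]
    ring

end

section

variable {K : Type*} [Field K]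

/-- the solutions of `card τ` linear equations among the polynomials of degree less than `k` -/
noncomputable def sols {τ : Type*} (k : ℕ) (H : τ → Fin k → K) : Submodule K K[X] where
  carrier := {p | p ∈ degreeLT K k ∧ ∀ b, ∑ l : Fin k, H b l * p.coeff l = 0}
  add_mem' := by
    rintro p q ⟨h1, h2⟩ ⟨h3, h4⟩
    refine ⟨Submodule.add_mem _ h1 h3, fun b => ?_⟩
    simp only [coeff_add, mul_add, Finset.sum_add_distrib, h2 b, h4 b, add_zero]
  zero_mem' := ⟨Submodule.zero_mem _, fun b => by simp⟩
  smul_mem' := by
    rintro c p ⟨h1, h2⟩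
    refine ⟨Submodule.smul_mem _ c h1, fun b => ?_⟩
    have : ∑ l : Fin k, H b l * (c • p).coeff l = c * ∑ l : Fin k, H b l * p.coeff l := by
      rw [Finset.mul_sum]
      refine Finset.sum_congr rfl fun l _ => ?_
      rw [coeff_smul, smul_eq_mul]
      ring
    rw [this, h2 b, mul_zero]

lemma sols_finrank {τ : Type*} [Fintype τ] (k : ℕ) (H : τ → Fin k → K) :
    k ≤ Module.finrank K (sols k H) + Fintype.card τ := by
  classical
  let φ : degreeLT K k →ₗ[K] (τ → K) :=
    { toFun := fun p b => ∑ l : Fin k, H b l * (p : K[X]).coeff l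
      map_add' := fun p q => by
        ext b
        simp [mul_add, Finset.sum_add_distrib]
      map_smul' := fun c p => by
        ext b
        simp only [RingHom.id_apply, Pi.smul_apply, smul_eq_mul, Finset.mul_sum]
        refine Finset.sum_congr rfl fun l _ => ?_
        rw [Submodule.coe_smul, coeff_smul, smul_eq_mul]
        ring }
  have h1 := φ.finrank_range_add_finrank_ker
  have h2 : Module.finrank K (LinearMap.range φ) ≤ Fintype.card τ := by
    refine (Submodule.finrank_le _).trans ?_
    simp
  have h3 : Module.finrank K (degreeLT K k) = k := by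
    rw [(degreeLTEquiv K k).finrank_eq]
    simp
  have h4 : Module.finrank K (LinearMap.ker φ) ≤ Module.finrank K (sols k H) := by
    let ψ : LinearMap.ker φ →ₗ[K] sols k H :=
      { toFun := fun p => ⟨(p : degreeLT K k), ⟨(p : degreeLT K k).2, fun b => by
          have := congrFun (LinearMap.mem_ker.1 p.2) b
          exact this⟩⟩
        map_add' := fun p q => rfl
        map_smul' := fun c p => rfl }
    have hfin : FiniteDimensional K (sols k H) :=
      Submodule.finiteDimensional_of_le (S₂ := degreeLT K k) (fun p hp => hp.1)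
    apply LinearMap.finrank_le_finrank_of_injective (f := ψ)
    intro p q hpq
    have h := congrArg (fun x : sols k H => (x : K[X])) hpq
    exact Subtype.ext (Subtype.ext h)
  omega

lemma expand_eq {k : ℕ} (p : K[X]) (hp : p ∈ degreeLT K k) (n : ℕ) :
    expand K n p = ∑ l : Fin k, C (p.coeff l) * X ^ (n * (l : ℕ)) := by
  have h1 : p = ∑ l ∈ Finset.range k, C (p.coeff l) * X ^ l := by
    by_cases hp0 : p = 0
    · subst hp0
      simp
    have h2 : p.natDegree < k := (natDegree_lt_iff_degree_lt hp0).2 (mem_degreeLT.1 hp)
    exact as_sum_range_C_mul_X_pow' p h2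
  conv_lhs => rw [h1]
  rw [map_sum, ← Fin.sum_univ_eq_sum_range (fun l => expand K n (C (p.coeff l) * X ^ l)) k]
  refine Finset.sum_congr rfl fun l _ => ?_
  rw [map_mul, expand_C, map_pow, expand_X, ← pow_mul]

end

/-- in characteristic zero a nonconstant polynomial has a nonzero partial derivative -/
lemma pderiv_ne {σ B : Type*} [CommRing B] [IsDomain B] [CharZero B] (f : MvPolynomial σ B)
    (h : ∀ i, MvPolynomial.pderiv i f = 0) : f = MvPolynomial.C (MvPolynomial.coeff 0 f) := by
  classical
  ext m
  rw [MvPolynomial.coeff_C]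
  split_ifs with hm
  · rw [hm]
  · have hm' : m ≠ 0 := fun h => hm h.symm
    obtain ⟨i, hi⟩ := Finsupp.ne_iff.1 hm'
    simp only [Finsupp.coe_zero, Pi.zero_apply] at hi
    obtain ⟨m', rfl⟩ : ∃ m', m = m' + Finsupp.single i 1 := by
      refine ⟨m - Finsupp.single i 1, (tsub_add_cancel_of_le ?_).symm⟩
      rw [Finsupp.single_le_iff]
      omega
    have h1 := congrArg (MvPolynomial.coeff m') (h i)
    rw [MvPolynomial.coeff_pderiv, MvPolynomial.coeff_zero] at h1
    rcases mul_eq_zero.1 h1 with h2 | h2
    · exact h2
    · exfalso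
      have : ((m' i + 1 : ℕ) : B) ≠ 0 := Nat.cast_ne_zero.2 (Nat.succ_ne_zero _)
      apply this
      push_cast
      exact h2

/-- **The shared seed.** -/
theorem seed {A : Type*} [CommRing A] [IsDomain A] [CharZero A] (B : Subring A) {σ τ : Type*}
    [Fintype σ] [Fintype τ] {k : ℕ} (D : Fin k → Derivation ℤ A A) (y : Fin k → A)
    (hDy : ∀ l m, D l (y m) = if l = m then 1 else 0) (H : τ → Fin k → A)
    (hB : ∀ e ∈ B, ∃ c : τ → A, ∀ l, D l e = ∑ b, c b * H b l) (e : σ → ℕ)
    (he : ∀ i, 0 < e i) (hinj : Function.Injective e)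
    (hcard : Fintype.card σ + Fintype.card τ ≤ k) :
    ∀ (N : ℕ) (f : MvPolynomial σ B), (∀ m ∈ f.support, m.degree ≤ N) →
      MvPolynomial.aeval (fun i => gen y (e i)) f = 0 → f = 0 := by
  classical
  intro N
  induction N with
  | zero =>
    intro f hN hf
    have h1 : f = MvPolynomial.C (MvPolynomial.coeff 0 f) := by
      refine MvPolynomial.ext _ _ fun m => ?_
      rw [MvPolynomial.coeff_C]
      split_ifs with hm
      · rw [hm]
      · by_contra hne
        have h2 := hN m (MvPolynomial.mem_support_iff.2 hne)
        have h3 : m = 0 := by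
          have : m.degree = 0 := by omega
          exact (Finsupp.degree_eq_zero_iff m).1 this
        exact hm h3.symm
    rw [h1, MvPolynomial.aeval_C] at hf
    have h2 : (C ((MvPolynomial.coeff 0 f : B) : A) : A[X]) = 0 := hf
    rw [C_eq_zero] at h2
    have h3 : (MvPolynomial.coeff 0 f : B) = 0 := Subtype.ext h2
    rw [h1, h3, map_zero]
  | succ N ih =>
    intro f hN hf
    obtain ⟨w, hw⟩ := chain B D y hDy H hB e f
    -- the relations
    have hrel : ∀ l : Fin k, ∑ i, MvPolynomial.aeval (fun i => gen y (e i))
        (MvPolynomial.pderiv i f) * X ^ (e i * (l : ℕ)) + ∑ b, w b * C (H b l) = 0 := by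
      intro l
      rw [← hw l, hf, map_zero]
    -- pass to the field of fractions
    let K := FractionRing A
    let ι : A[X] →+* K[X] := mapRingHom (algebraMap A K)
    have hι : Function.Injective ι :=
      map_injective _ (IsFractionRing.injective A K)
    have hz : ∀ i, ι (MvPolynomial.aeval (fun i => gen y (e i)) (MvPolynomial.pderiv i f)) = 0 := by
      apply trop e he hinj _ (sols k (fun b l => algebraMap A K (H b l))) k
        (fun p hp => hp.1)
      · have := sols_finrank k (fun (b : τ) l => algebraMap A K (H b l))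
        omega
      · intro p hp
        have h1 : ∀ i, ι (MvPolynomial.aeval (fun i => gen y (e i)) (MvPolynomial.pderiv i f)) *
            expand K (e i) p = ∑ l : Fin k, C (p.coeff l) *
              ι (MvPolynomial.aeval (fun i => gen y (e i)) (MvPolynomial.pderiv i f) *
                X ^ (e i * (l : ℕ))) := by
          intro i
          rw [expand_eq p hp.1, Finset.mul_sum]
          refine Finset.sum_congr rfl fun l _ => ?_
          rw [map_mul, map_pow]
          have : ι X = X := by simp [ι]
          rw [this]
          ring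
        simp only [h1]
        rw [Finset.sum_comm]
        have h2 : ∀ l : Fin k, ∑ i, C (p.coeff l) *
            ι (MvPolynomial.aeval (fun i => gen y (e i)) (MvPolynomial.pderiv i f) *
                X ^ (e i * (l : ℕ))) =
            -∑ b, ι (w b) * C (algebraMap A K (H b l) * p.coeff l) := by
          intro l
          rw [← Finset.mul_sum, ← map_sum, eq_neg_of_add_eq_zero_left (hrel l), map_neg, map_sum]
          have hn : ∀ a b : K[X], a * -b = -(a * b) := fun a b => by ring
          rw [hn, Finset.mul_sum]
          congr 1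
          refine Finset.sum_congr rfl fun b _ => ?_
          have : ι (w b * C (H b l)) = ι (w b) * C (algebraMap A K (H b l)) := by
            rw [map_mul]
            congr 1
            simp [ι]
          rw [this, C_mul]
          ring
        simp only [h2]
        rw [Finset.sum_neg_distrib, Finset.sum_comm, neg_eq_zero]
        refine Finset.sum_eq_zero fun b _ => ?_
        rw [← Finset.mul_sum, ← map_sum, hp.2 b, map_zero, mul_zero]
    have hz' : ∀ i, MvPolynomial.pderiv i f = 0 := by
      intro i
      apply ih
      · intro m hm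
        rw [MvPolynomial.mem_support_iff, MvPolynomial.coeff_pderiv] at hm
        have h1 : m + Finsupp.single i 1 ∈ f.support := by
          rw [MvPolynomial.mem_support_iff]
          exact left_ne_zero_of_mul hm
        have h2 := hN _ h1
        rw [map_add, Finsupp.degree_single] at h2
        omega
      · exact hι (by rw [hz i, map_zero])
    have h1 := pderiv_ne f hz'
    rw [h1, MvPolynomial.aeval_C] at hf
    have h2 : (C ((MvPolynomial.coeff 0 f : B) : A) : A[X]) = 0 := hf
    rw [C_eq_zero] at h2
    have h3 : (MvPolynomial.coeff 0 f : B) = 0 := Subtype.ext h2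
    rw [h1, h3, map_zero]

end Pool.Agent.J6H7.PIT
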