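import Mathlib
import Pool.Agent.J6H7.PIT.Ext

/-!
# Arithmetic expressions: compression of an expression with few leaves in a block of variables
-/

set_option autoImplicit false

namespace Pool.Agent.J6H7.PIT

open Finset

/-- arithmetic expressions in the variables `x_i`, `i : Fin n`, with constants in `F` -/
inductive Expr (F : Type*) (n : ℕ)
  | const (c : F) : Expr F n
  | var (i : Fin n) : Expr F n
  | add (a b : Expr F n) : Expr F n
  | sub (a b : Expr F n) : Expr F n
  | mul (a b : Expr F n) : Expr F n

namespace Expr

variable {F : Type*} {n : ℕ}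

/-- the value of an expression -/
def ev [Field F] {T : Type*} [CommRing T] [Algebra F T] (ρ : Fin n → T) : Expr F n → T
  | const c => algebraMap F T c
  | var i => ρ i
  | add a b => ev ρ a + ev ρ b
  | sub a b => ev ρ a - ev ρ b
  | mul a b => ev ρ a * ev ρ b

/-- the number of the leaves labelled by variables in `J` -/
def occ (J : Fin n → Prop) [DecidablePred J] : Expr F n → ℕ
  | const _ => 0
  | var i => if J i then 1 else 0
  | add a b => occ J a + occ J b
  | sub a b => occ J a + occ J b
  | mul a b => occ J a + occ J b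

/-- the variable occurs -/
def Occurs (i : Fin n) : Expr F n → Prop
  | const _ => False
  | var j => j = i
  | add a b => Occurs i a ∨ Occurs i b
  | sub a b => Occurs i a ∨ Occurs i b
  | mul a b => Occurs i a ∨ Occurs i b

lemma ev_congr [Field F] {T : Type*} [CommRing T] [Algebra F T] {ρ ρ' : Fin n → T} (E : Expr F n)
    (h : ∀ i, Occurs i E → ρ i = ρ' i) : ev ρ E = ev ρ' E := by
  induction E with
  | const c => rfl
  | var i => exact h i rfl
  | add a b iha ihb =>
    simp only [ev]
    rw [iha fun i hi => h i (Or.inl hi), ihb fun i hi => h i (Or.inr hi)]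
  | sub a b iha ihb =>
    simp only [ev]
    rw [iha fun i hi => h i (Or.inl hi), ihb fun i hi => h i (Or.inr hi)]
  | mul a b iha ihb =>
    simp only [ev]
    rw [iha fun i hi => h i (Or.inl hi), ihb fun i hi => h i (Or.inr hi)]

lemma map_ev [Field F] {T T' : Type*} [CommRing T] [Algebra F T] [CommRing T'] [Algebra F T']
    (φ : T →ₐ[F] T') (ρ : Fin n → T) (E : Expr F n) :
    φ (ev ρ E) = ev (fun i => φ (ρ i)) E := by
  induction E with
  | const c => simp [ev]
  | var i => rfl
  | add a b iha ihb => simp [ev, iha, ihb]
  | sub a b iha ihb => simp [ev, iha, ihb]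
  | mul a b iha ihb => simp [ev, iha, ihb]

lemma occ_mono {J J' : Fin n → Prop} [DecidablePred J] [DecidablePred J'] (E : Expr F n)
    (h : ∀ i, J i → J' i) : occ J E ≤ occ J' E := by
  induction E with
  | const c => simp [occ]
  | var i =>
    simp only [occ]
    by_cases h1 : J i
    · rw [if_pos h1, if_pos (h i h1)]
    · rw [if_neg h1]
      exact Nat.zero_le _
  | add a b iha ihb => simp only [occ]; omega
  | sub a b iha ihb => simp only [occ]; omega
  | mul a b iha ihb => simp only [occ]; omega

lemma occ_pos {J : Fin n → Prop} [DecidablePred J] (E : Expr F n) {i : Fin n} (hi : J i)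
    (h : Occurs i E) : 0 < occ J E := by
  induction E with
  | const c => exact absurd h id
  | var j =>
    have : j = i := h
    subst this
    simp [occ, hi]
  | add a b iha ihb =>
    simp only [occ]
    rcases h with h | h
    · have := iha h; omega
    · have := ihb h; omega
  | sub a b iha ihb =>
    simp only [occ]
    rcases h with h | h
    · have := iha h; omega
    · have := ihb h; omega
  | mul a b iha ihb =>
    simp only [occ]
    rcases h with h | h
    · have := iha h; omega
    · have := ihb h; omega

/-- the number of the leaves is the sum of the numbers for the single variables -/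
lemma occ_eq_sum (J : Fin n → Prop) [DecidablePred J] (E : Expr F n) :
    occ J E = ∑ i ∈ univ.filter J, occ (fun j => j = i) E := by
  induction E with
  | const c => simp [occ]
  | var j =>
    simp only [occ]
    rw [Finset.sum_ite_eq]
    simp
  | add a b iha ihb => simp only [occ, Finset.sum_add_distrib, ← iha, ← ihb]
  | sub a b iha ihb => simp only [occ, Finset.sum_add_distrib, ← iha, ← ihb]
  | mul a b iha ihb => simp only [occ, Finset.sum_add_distrib, ← iha, ← ihb]

end Expr

open Pool.Agent.J6H7.PIT.Expr

section

variable {F A σ : Type*} [Field F] [CommRing A] [Algebra F A]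

/-- the polynomials with coefficients in `B` -/
noncomputable def coefIn (σ : Type*) (B : Subalgebra F A) : Subalgebra F (MvPolynomial σ A) :=
  (MvPolynomial.mapAlgHom (σ := σ) B.val).range

lemma C_mem {B : Subalgebra F A} {a : A} (h : a ∈ B) : (MvPolynomial.C a) ∈ coefIn σ B :=
  ⟨MvPolynomial.C ⟨a, h⟩, (MvPolynomial.map_C _ _).trans rfl⟩

lemma X_mem {B : Subalgebra F A} (i : σ) : (MvPolynomial.X i) ∈ coefIn σ B :=
  ⟨MvPolynomial.X i, MvPolynomial.map_X _ _⟩

lemma coefIn_mono {B B' : Subalgebra F A} (h : B ≤ B') : coefIn σ B ≤ coefIn σ B' := by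
  rintro _ ⟨p, rfl⟩
  refine ⟨MvPolynomial.mapAlgHom (Subalgebra.inclusion h) p, ?_⟩
  have h1 := MvPolynomial.map_map (Subalgebra.inclusion h : B →+* B') (B'.val : B' →+* A) p
  exact h1.trans rfl

/-- **Compression** (Kalorkoti): an expression with `l ≥ 1` leaves in the block. -/
theorem compress {n : ℕ} (J : Fin n → Prop) [DecidablePred J] (ρ : Fin n → MvPolynomial σ A)
    (hJ : ∀ i, J i → ∃ s, ρ i = MvPolynomial.X s) (hn : ∀ i, ¬ J i → ∃ a, ρ i = MvPolynomial.C a)
    (E : Expr F n) :
    (occ J E = 0 → ∃ a, ev ρ E = MvPolynomial.C a) ∧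
    (1 ≤ occ J E → ∃ (s : Finset A) (U : MvPolynomial σ A) (α β : A), s.card + 4 ≤ 4 * occ J E ∧
      U ∈ coefIn σ (Algebra.adjoin F (s : Set A)) ∧
      ev ρ E = MvPolynomial.C α * U + MvPolynomial.C β) := by
  classical
  induction E with
  | const c =>
    refine ⟨fun _ => ⟨algebraMap F A c, ?_⟩, fun h => absurd h (by simp [occ])⟩
    simp only [ev]
    rw [IsScalarTower.algebraMap_apply F A (MvPolynomial σ A), MvPolynomial.algebraMap_eq]
  | var i =>
    constructor
    · intro h
      have hi : ¬ J i := by
        intro hJi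
        simp [occ, hJi] at h
      exact hn i hi
    · intro h
      have hi : J i := by
        by_contra hJi
        simp [occ, hJi] at h
      obtain ⟨s, hs⟩ := hJ i hi
      refine ⟨∅, MvPolynomial.X s, 1, 0, by simp [occ, hi], X_mem s, ?_⟩
      simp [ev, hs]
  | add a b iha ihb =>
    refine ⟨fun h => ?_, fun h => ?_⟩
    · simp only [occ] at h
      obtain ⟨x, hx⟩ := iha.1 (by omega)
      obtain ⟨y, hy⟩ := ihb.1 (by omega)
      exact ⟨x + y, by simp only [ev, hx, hy, map_add]⟩
    · by_cases ha : occ J a = 0
      · obtain ⟨x, hx⟩ := iha.1 ha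
        obtain ⟨s, U, α, β, h1, h2, h3⟩ := ihb.2 (by simp only [occ] at h; omega)
        refine ⟨s, U, α, β + x, by simp only [occ]; omega, h2, ?_⟩
        simp only [ev, hx, h3, map_add]
        ring
      by_cases hb : occ J b = 0
      · obtain ⟨x, hx⟩ := ihb.1 hb
        obtain ⟨s, U, α, β, h1, h2, h3⟩ := iha.2 (by omega)
        refine ⟨s, U, α, β + x, by simp only [occ]; omega, h2, ?_⟩
        simp only [ev, hx, h3, map_add]
        ring
      obtain ⟨s, U, α, β, h1, h2, h3⟩ := iha.2 (by omega)
      obtain ⟨s', U', α', β', h1', h2', h3'⟩ := ihb.2 (by omega)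
      refine ⟨s ∪ s' ∪ {α, β, α', β'}, MvPolynomial.C α * U + MvPolynomial.C β +
        (MvPolynomial.C α' * U' + MvPolynomial.C β'), 1, 0, ?_, ?_, ?_⟩
      · have h4 := Finset.card_union_le (s ∪ s') {α, β, α', β'}
        have h5 := Finset.card_union_le s s'
        have h6 : ({α, β, α', β'} : Finset A).card ≤ 4 := Finset.card_le_four
        simp only [occ]
        omega
      · have hs : coefIn σ (Algebra.adjoin F (s : Set A)) ≤
            coefIn σ (Algebra.adjoin F ((s ∪ s' ∪ {α, β, α', β'} : Finset A) : Set A)) :=
          coefIn_mono (Algebra.adjoin_mono (by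
            intro x hx
            simp only [Finset.coe_union, Set.mem_union]
            exact Or.inl (Or.inl hx)))
        have hs' : coefIn σ (Algebra.adjoin F (s' : Set A)) ≤
            coefIn σ (Algebra.adjoin F ((s ∪ s' ∪ {α, β, α', β'} : Finset A) : Set A)) :=
          coefIn_mono (Algebra.adjoin_mono (by
            intro x hx
            simp only [Finset.coe_union, Set.mem_union]
            exact Or.inl (Or.inr hx)))
        have hm : ∀ x ∈ ({α, β, α', β'} : Finset A), (MvPolynomial.C x : MvPolynomial σ A) ∈
            coefIn σ (Algebra.adjoin F ((s ∪ s' ∪ {α, β, α', β'} : Finset A) : Set A)) := by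
          intro x hx
          apply C_mem
          apply Algebra.subset_adjoin
          rw [Finset.mem_coe, Finset.mem_union]
          exact Or.inr hx
        exact add_mem (add_mem (mul_mem (hm α (by simp)) (hs h2)) (hm β (by simp)))
          (add_mem (mul_mem (hm α' (by simp)) (hs' h2')) (hm β' (by simp)))
      · simp only [ev, h3, h3']
        simp
  | sub a b iha ihb =>
    refine ⟨fun h => ?_, fun h => ?_⟩
    · simp only [occ] at h
      obtain ⟨x, hx⟩ := iha.1 (by omega)
      obtain ⟨y, hy⟩ := ihb.1 (by omega)
      exact ⟨x - y, by simp only [ev, hx, hy, map_sub]⟩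
    · by_cases ha : occ J a = 0
      · obtain ⟨x, hx⟩ := iha.1 ha
        obtain ⟨s, U, α, β, h1, h2, h3⟩ := ihb.2 (by simp only [occ] at h; omega)
        refine ⟨s, U, -α, x - β, by simp only [occ]; omega, h2, ?_⟩
        simp only [ev, hx, h3, map_sub, map_neg]
        ring
      by_cases hb : occ J b = 0
      · obtain ⟨x, hx⟩ := ihb.1 hb
        obtain ⟨s, U, α, β, h1, h2, h3⟩ := iha.2 (by omega)
        refine ⟨s, U, α, β - x, by simp only [occ]; omega, h2, ?_⟩
        simp only [ev, hx, h3, map_sub]
        ring
      obtain ⟨s, U, α, β, h1, h2, h3⟩ := iha.2 (by omega)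
      obtain ⟨s', U', α', β', h1', h2', h3'⟩ := ihb.2 (by omega)
      refine ⟨s ∪ s' ∪ {α, β, α', β'}, MvPolynomial.C α * U + MvPolynomial.C β -
        (MvPolynomial.C α' * U' + MvPolynomial.C β'), 1, 0, ?_, ?_, ?_⟩
      · have h4 := Finset.card_union_le (s ∪ s') {α, β, α', β'}
        have h5 := Finset.card_union_le s s'
        have h6 : ({α, β, α', β'} : Finset A).card ≤ 4 := Finset.card_le_four
        simp only [occ]
        omega
      · have hs : coefIn σ (Algebra.adjoin F (s : Set A)) ≤
            coefIn σ (Algebra.adjoin F ((s ∪ s' ∪ {α, β, α', β'} : Finset A) : Set A)) :=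
          coefIn_mono (Algebra.adjoin_mono (by
            intro x hx
            simp only [Finset.coe_union, Set.mem_union]
            exact Or.inl (Or.inl hx)))
        have hs' : coefIn σ (Algebra.adjoin F (s' : Set A)) ≤
            coefIn σ (Algebra.adjoin F ((s ∪ s' ∪ {α, β, α', β'} : Finset A) : Set A)) :=
          coefIn_mono (Algebra.adjoin_mono (by
            intro x hx
            simp only [Finset.coe_union, Set.mem_union]
            exact Or.inl (Or.inr hx)))
        have hm : ∀ x ∈ ({α, β, α', β'} : Finset A), (MvPolynomial.C x : MvPolynomial σ A) ∈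
            coefIn σ (Algebra.adjoin F ((s ∪ s' ∪ {α, β, α', β'} : Finset A) : Set A)) := by
          intro x hx
          apply C_mem
          apply Algebra.subset_adjoin
          rw [Finset.mem_coe, Finset.mem_union]
          exact Or.inr hx
        exact sub_mem (add_mem (mul_mem (hm α (by simp)) (hs h2)) (hm β (by simp)))
          (add_mem (mul_mem (hm α' (by simp)) (hs' h2')) (hm β' (by simp)))
      · simp only [ev, h3, h3']
        simp
  | mul a b iha ihb =>
    refine ⟨fun h => ?_, fun h => ?_⟩
    · simp only [occ] at h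
      obtain ⟨x, hx⟩ := iha.1 (by omega)
      obtain ⟨y, hy⟩ := ihb.1 (by omega)
      exact ⟨x * y, by simp only [ev, hx, hy, map_mul]⟩
    · by_cases ha : occ J a = 0
      · obtain ⟨x, hx⟩ := iha.1 ha
        obtain ⟨s, U, α, β, h1, h2, h3⟩ := ihb.2 (by simp only [occ] at h; omega)
        refine ⟨s, U, α * x, β * x, by simp only [occ]; omega, h2, ?_⟩
        simp only [ev, hx, h3, map_mul]
        ring
      by_cases hb : occ J b = 0
      · obtain ⟨x, hx⟩ := ihb.1 hb
        obtain ⟨s, U, α, β, h1, h2, h3⟩ := iha.2 (by omega)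
        refine ⟨s, U, α * x, β * x, by simp only [occ]; omega, h2, ?_⟩
        simp only [ev, hx, h3, map_mul]
        ring
      obtain ⟨s, U, α, β, h1, h2, h3⟩ := iha.2 (by omega)
      obtain ⟨s', U', α', β', h1', h2', h3'⟩ := ihb.2 (by omega)
      refine ⟨s ∪ s' ∪ {α, β, α', β'}, (MvPolynomial.C α * U + MvPolynomial.C β) *
        (MvPolynomial.C α' * U' + MvPolynomial.C β'), 1, 0, ?_, ?_, ?_⟩
      · have h4 := Finset.card_union_le (s ∪ s') {α, β, α', β'}
        have h5 := Finset.card_union_le s s'
        have h6 : ({α, β, α', β'} : Finset A).card ≤ 4 := Finset.card_le_four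
        simp only [occ]
        omega
      · have hs : coefIn σ (Algebra.adjoin F (s : Set A)) ≤
            coefIn σ (Algebra.adjoin F ((s ∪ s' ∪ {α, β, α', β'} : Finset A) : Set A)) :=
          coefIn_mono (Algebra.adjoin_mono (by
            intro x hx
            simp only [Finset.coe_union, Set.mem_union]
            exact Or.inl (Or.inl hx)))
        have hs' : coefIn σ (Algebra.adjoin F (s' : Set A)) ≤
            coefIn σ (Algebra.adjoin F ((s ∪ s' ∪ {α, β, α', β'} : Finset A) : Set A)) :=
          coefIn_mono (Algebra.adjoin_mono (by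
            intro x hx
            simp only [Finset.coe_union, Set.mem_union]
            exact Or.inl (Or.inr hx)))
        have hm : ∀ x ∈ ({α, β, α', β'} : Finset A), (MvPolynomial.C x : MvPolynomial σ A) ∈
            coefIn σ (Algebra.adjoin F ((s ∪ s' ∪ {α, β, α', β'} : Finset A) : Set A)) := by
          intro x hx
          apply C_mem
          apply Algebra.subset_adjoin
          rw [Finset.mem_coe, Finset.mem_union]
          exact Or.inr hx
        exact mul_mem (add_mem (mul_mem (hm α (by simp)) (hs h2)) (hm β (by simp)))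
          (add_mem (mul_mem (hm α' (by simp)) (hs' h2')) (hm β' (by simp)))
      · simp only [ev, h3, h3']
        simp

end

end Pool.Agent.J6H7.PIT
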