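import Mathlib
import Pool.Agent.J6H7.PIT.Expr

/-!
# Replacing one block of variables by the map with the shared seed
-/

set_option autoImplicit false

namespace Pool.Agent.J6H7.PIT

open Finset Pool.Agent.J6H7.PIT.Expr

/-- gradients of the elements of `adjoin F s` -/
lemma grad {F S : Type*} [Field F] [CommRing S] [Algebra F S] {k : ℕ}
    (D : Fin k → Derivation F S S) (s : Finset S) :
    ∀ e ∈ (Algebra.adjoin F (s : Set S)), ∃ c : s → S, ∀ l, D l e = ∑ b : s, c b * D l b := by
  classical
  intro e he
  induction he using Algebra.adjoin_induction with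
  | mem x hx =>
    refine ⟨fun b => if (b : S) = x then 1 else 0, fun l => ?_⟩
    rw [Finset.sum_eq_single ⟨x, hx⟩]
    · simp
    · intro b _ hb
      have hb' : ¬ ((b : S) = x) := fun h => hb (Subtype.ext h)
      simp only [hb', if_false, zero_mul]
    · intro h
      exact absurd (mem_univ _) h
  | algebraMap c =>
    exact ⟨fun _ => 0, fun l => by simp⟩
  | add x y _ _ hx hy =>
    obtain ⟨c, hc⟩ := hx
    obtain ⟨c', hc'⟩ := hy
    refine ⟨fun b => c b + c' b, fun l => ?_⟩
    rw [map_add, hc, hc', ← Finset.sum_add_distrib]
    exact Finset.sum_congr rfl fun b _ => by ring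
  | mul x y _ _ hx hy =>
    obtain ⟨c, hc⟩ := hx
    obtain ⟨c', hc'⟩ := hy
    refine ⟨fun b => x * c' b + y * c b, fun l => ?_⟩
    rw [Derivation.leibniz, hc, hc', smul_eq_mul, smul_eq_mul, Finset.mul_sum, Finset.mul_sum,
      ← Finset.sum_add_distrib]
    exact Finset.sum_congr rfl fun b _ => by ring

section

variable {F S : Type*} [Field F] [CommRing S] [IsDomain S] [CharZero S] [Algebra F S] {n k : ℕ}

/-- several variables, few leaves -/
theorem step_multi (D : Fin k → Derivation F S S) (y : Fin k → S)
    (hDy : ∀ l m, D l (y m) = if l = m then 1 else 0) (e : Fin n → ℕ) (he : ∀ i, 0 < e i)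
    (hinj : Function.Injective e) (J : Fin n → Prop) [DecidablePred J] (E : Expr F n)
    (a : Fin n → S) (hE : ev a E ≠ 0) (hk : 5 * occ J E ≤ k) :
    ev (fun i => if J i then gen y (e i) else Polynomial.C (a i)) E ≠ 0 := by
  classical
  by_cases h0 : occ J E = 0
  · have h1 : ev (fun i => if J i then gen y (e i) else Polynomial.C (a i)) E =
        ev (fun i => (Polynomial.CAlgHom : S →ₐ[S] Polynomial S) (a i)) E := by
      apply ev_congr
      intro i hi
      have hJ : ¬ J i := fun hJ => by
        have := occ_pos E hJ hi
        omega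
      simp [hJ]
    rw [h1]
    have h2 := map_ev ((Polynomial.CAlgHom : S →ₐ[S] Polynomial S).restrictScalars F) a E
    intro h3
    apply hE
    have h4 : ((Polynomial.CAlgHom : S →ₐ[S] Polynomial S).restrictScalars F) (ev a E) = 0 :=
      h2.trans h3
    have h5 : (Polynomial.C (ev a E) : Polynomial S) = 0 := h4
    exact Polynomial.C_eq_zero.1 h5
  -- the variables which occur
  let σ := {i : Fin n // J i ∧ Occurs i E}
  let ρ : Fin n → MvPolynomial σ S := fun i =>
    if h : J i ∧ Occurs i E then MvPolynomial.X ⟨i, h⟩ else MvPolynomial.C (a i)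
  let J' : Fin n → Prop := fun i => J i ∧ Occurs i E
  have hocc : occ J' E ≤ occ J E := occ_mono E fun i hi => hi.1
  have hocc' : occ J E ≤ occ J' E := by
    rw [occ_eq_sum J E, occ_eq_sum J' E]
    have : ∀ i ∈ univ.filter J, i ∉ univ.filter J' → occ (fun j => j = i) E = 0 := by
      intro i hi hi'
      simp only [mem_filter, mem_univ, true_and] at hi hi'
      have hno : ¬ Occurs i E := fun h => hi' ⟨hi, h⟩
      clear hi hi' h0 hE hk hocc
      by_contra hne
      apply hno
      revert hne
      clear hno
      induction E with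
      | const c => intro h; exact absurd rfl h
      | var j =>
        intro h
        by_contra hji
        apply h
        simp only [occ]
        rw [if_neg]
        exact hji
      | add a b iha ihb =>
        intro h
        simp only [occ] at h
        by_cases h1 : occ (fun j => j = i) a = 0
        · exact Or.inr (ihb (by omega))
        · exact Or.inl (iha h1)
      | sub a b iha ihb =>
        intro h
        simp only [occ] at h
        by_cases h1 : occ (fun j => j = i) a = 0
        · exact Or.inr (ihb (by omega))
        · exact Or.inl (iha h1)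
      | mul a b iha ihb =>
        intro h
        simp only [occ] at h
        by_cases h1 : occ (fun j => j = i) a = 0
        · exact Or.inr (ihb (by omega))
        · exact Or.inl (iha h1)
    rw [← Finset.sum_filter_add_sum_filter_not (univ.filter J) J']
    have h2 : ∑ x ∈ (univ.filter J).filter (fun x => ¬ J' x), occ (fun j => j = x) E = 0 := by
      apply Finset.sum_eq_zero
      intro i hi
      simp only [mem_filter, mem_univ, true_and] at hi
      exact this i (by simp [hi.1]) (by simp only [mem_filter, mem_univ, true_and]; exact hi.2)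
    rw [h2, add_zero]
    apply Finset.sum_le_sum_of_subset
    intro i hi
    simp only [mem_filter, mem_univ, true_and] at hi ⊢
    exact hi.2
  have hcomp := (compress J' ρ (fun i hi => ⟨⟨i, hi⟩, dif_pos hi⟩)
    (fun i hi => ⟨a i, dif_neg hi⟩) E).2 (by omega)
  obtain ⟨s, U, α, β, hs1, hs2, hs3⟩ := hcomp
  -- the polynomial over a small algebra
  set f : MvPolynomial σ S := ev ρ E with hf
  set s' : Finset S := s ∪ {α, β} with hs'
  have hcard' : s'.card ≤ s.card + 2 := by
    refine (Finset.card_union_le _ _).trans ?_
    have : ({α, β} : Finset S).card ≤ 2 := Finset.card_le_two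
    omega
  have hmem : f ∈ coefIn σ (Algebra.adjoin F (s' : Set S)) := by
    rw [hs3]
    have h1 : coefIn σ (Algebra.adjoin F (s : Set S)) ≤ coefIn σ (Algebra.adjoin F (s' : Set S)) :=
      coefIn_mono (Algebra.adjoin_mono (by
        intro x hx
        rw [hs', Finset.coe_union]
        exact Or.inl hx))
    have hm : ∀ x ∈ ({α, β} : Finset S), (MvPolynomial.C x : MvPolynomial σ S) ∈
        coefIn σ (Algebra.adjoin F (s' : Set S)) := by
      intro x hx
      apply C_mem
      apply Algebra.subset_adjoin
      rw [hs', Finset.mem_coe, Finset.mem_union]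
      exact Or.inr hx
    exact add_mem (mul_mem (hm α (by simp)) (h1 hs2)) (hm β (by simp))
  obtain ⟨f', hf'⟩ := hmem
  have hf'2 : MvPolynomial.map (algebraMap (Algebra.adjoin F (s' : Set S)) S) f' = f := hf'
  -- it is not zero
  have hfne : f ≠ 0 := by
    intro h0
    apply hE
    have h1 := map_ev ((MvPolynomial.aeval (fun i : σ => a i) : MvPolynomial σ S →ₐ[S]
      S).restrictScalars F) ρ E
    have h2 : ev (fun i => ((MvPolynomial.aeval (fun i : σ => a i) : MvPolynomial σ S →ₐ[S]
        S).restrictScalars F) (ρ i)) E = ev a E := by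
      apply ev_congr
      intro i _
      by_cases h : J i ∧ Occurs i E
      · simp [ρ, dif_pos h]
      · simp [ρ, dif_neg h]
    rw [← h2, ← h1, ← hf, h0, map_zero]
  have hf'ne : f' ≠ 0 := by
    rintro rfl
    apply hfne
    rw [← hf'2, map_zero]
  -- the shared seed
  have hσ : Fintype.card σ ≤ occ J E := by
    rw [occ_eq_sum J E, Fintype.card_subtype]
    rw [Finset.card_eq_sum_ones]
    calc ∑ x ∈ univ.filter (fun i => J i ∧ Occurs i E), 1
        ≤ ∑ x ∈ univ.filter (fun i => J i ∧ Occurs i E), occ (fun j => j = x) E := by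
          apply Finset.sum_le_sum
          intro i hi
          simp only [mem_filter, mem_univ, true_and] at hi
          exact occ_pos E rfl hi.2
      _ ≤ _ := by
          apply Finset.sum_le_sum_of_subset
          intro i hi
          simp only [mem_filter, mem_univ, true_and] at hi ⊢
          exact hi.1
  have hseed := seed (A := S) (Algebra.adjoin F (s' : Set S)).toSubring (σ := σ) (τ := s')
    (fun l => (D l).restrictScalars ℤ) y hDy (fun b l => D l b)
    (fun x hx => grad D s' x hx) (fun i => e i) (fun i => he i)
    (fun i j hij => Subtype.ext (hinj hij)) (by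
      rw [Fintype.card_coe]
      omega) (f'.support.sup (fun m => m.degree)) f'
    (fun m hm => Finset.le_sup (f := fun m => m.degree) hm)
  have hne : MvPolynomial.aeval (fun i : σ => gen y (e i)) f' ≠ 0 := fun h => hf'ne (hseed h)
  -- comparison
  have h1 : MvPolynomial.aeval (fun i : σ => gen y (e i)) f' =
      MvPolynomial.aeval (fun i : σ => gen y (e i)) f := by
    rw [← hf'2, MvPolynomial.aeval_map_algebraMap]
  rw [h1] at hne
  have h2 := map_ev ((MvPolynomial.aeval (fun i : σ => gen y (e i)) : MvPolynomial σ S →ₐ[S]
      Polynomial S).restrictScalars F) ρ E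
  have h3 : ev (fun i => ((MvPolynomial.aeval (fun i : σ => gen y (e i)) : MvPolynomial σ S →ₐ[S]
      Polynomial S).restrictScalars F) (ρ i)) E =
      ev (fun i => if J i then gen y (e i) else Polynomial.C (a i)) E := by
    apply ev_congr
    intro i hi
    by_cases h : J i
    · have h' : J i ∧ Occurs i E := ⟨h, hi⟩
      simp [ρ, dif_pos h', h]
    · have h' : ¬ (J i ∧ Occurs i E) := fun h'' => h h''.1
      simp only [ρ, dif_neg h', h, if_false]
      have : ((MvPolynomial.aeval (fun i : σ => gen y (e i)) : MvPolynomial σ S →ₐ[S]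
        Polynomial S).restrictScalars F) (MvPolynomial.C (a i)) = algebraMap S _ (a i) :=
        MvPolynomial.aeval_C _ _
      rw [this]
      rfl
  rw [← h3, ← h2]
  exact hne

/-- one variable, arbitrarily many leaves -/
theorem step_single (D : Fin k → Derivation F S S) (y : Fin k → S)
    (hDy : ∀ l m, D l (y m) = if l = m then 1 else 0) (hk : 2 ≤ k) (e : Fin n → ℕ)
    (he : ∀ i, 0 < e i) (J : Fin n → Prop) [DecidablePred J] (E : Expr F n)
    (a : Fin n → S) (hE : ev a E ≠ 0) (i₀ : Fin n) (hJ : J i₀) (hi₀ : ∀ i, J i → Occurs i E → i = i₀) :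
    ev (fun i => if J i then gen y (e i) else Polynomial.C (a i)) E ≠ 0 := by
  classical
  let ρ : Fin n → Polynomial S := fun i => if i = i₀ then Polynomial.X else Polynomial.C (a i)
  set f : Polynomial S := ev ρ E with hf
  have hfne : f ≠ 0 := by
    intro h0
    apply hE
    have h1 := map_ev ((Polynomial.aeval (a i₀) : Polynomial S →ₐ[S] S).restrictScalars F) ρ E
    have h2 : ev (fun i => ((Polynomial.aeval (a i₀) : Polynomial S →ₐ[S] S).restrictScalars F)
        (ρ i)) E = ev a E := by
      apply ev_congr
      intro i _
      by_cases h : i = i₀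
      · subst h
        simp [ρ]
      · simp [ρ, h]
    rw [← h2, ← h1, ← hf, h0, map_zero]
  have hg : ∀ c : S, gen y (e i₀) ≠ Polynomial.C c := by
    intro c hc
    have h1 := dc_gen (fun l => (D l).restrictScalars ℤ) y hDy (e i₀) ⟨1, by omega⟩
    rw [hc, dc_C] at h1
    have h2 := congrArg (fun p => Polynomial.coeff p (e i₀)) h1
    simp only [mul_one, Polynomial.coeff_X_pow, if_true, Polynomial.coeff_C] at h2
    have h3 := he i₀
    rw [if_neg (by omega)] at h2
    exact zero_ne_one h2
  have hcomp : f.comp (gen y (e i₀)) ≠ 0 := by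
    rw [Ne, Polynomial.comp_eq_zero_iff]
    rintro (h | ⟨_, h⟩)
    · exact hfne h
    · exact hg _ h
  have h2 := map_ev ((Polynomial.aeval (gen y (e i₀)) : Polynomial S →ₐ[S]
    Polynomial S).restrictScalars F) ρ E
  have h3 : ev (fun i => ((Polynomial.aeval (gen y (e i₀)) : Polynomial S →ₐ[S]
      Polynomial S).restrictScalars F) (ρ i)) E =
      ev (fun i => if J i then gen y (e i) else Polynomial.C (a i)) E := by
    apply ev_congr
    intro i hi
    by_cases h : i = i₀
    · subst h
      simp [ρ, hJ]
    · have hJi : ¬ J i := fun hJi => h (hi₀ i hJi hi)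
      simp only [ρ, h, hJi, if_false]
      have : ((Polynomial.aeval (gen y (e i₀)) : Polynomial S →ₐ[S]
        Polynomial S).restrictScalars F) (Polynomial.C (a i)) = algebraMap S _ (a i) :=
        Polynomial.aeval_C _ _
      rw [this]
      rfl
  rw [← h3, ← h2]
  exact hcomp

end

end Pool.Agent.J6H7.PIT
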