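import Mathlib
import Pool.Agent.J6H7.PIT.Step

/-!
# The blocks one after the other
-/

set_option autoImplicit false

namespace Pool.Agent.J6H7.PIT

open Finset Pool.Agent.J6H7.PIT.Expr MvPolynomial

section

variable (F : Type*) [Field F] (n M k : ℕ)

/-- the variables: the seed `y_l`, the arguments `z_v` of the blocks, the variables `x_i` -/
abbrev Vars := Fin k ⊕ (Fin M ⊕ Fin n)

variable {n M k}

/-- the polynomial `∑_l z_{β i} ^ ((i + 1) l) y_l` -/
noncomputable def big (β : Fin n → Fin M) (i : Fin n) : MvPolynomial (Vars n M k) F :=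
  ∑ l : Fin k, X (Sum.inl l) * X (Sum.inr (Sum.inl (β i))) ^ (((i : ℕ) + 1) * (l : ℕ))

/-- the first `j` blocks are replaced -/
noncomputable def asg (β : Fin n → Fin M) (j : ℕ) (i : Fin n) : MvPolynomial (Vars n M k) F :=
  if (β i : ℕ) < j then big F β i else X (Sum.inr (Sum.inr i))

/-- the variable `z_j` becomes the main variable -/
noncomputable def theta (j : Fin M) :
    MvPolynomial (Vars n M k) F →ₐ[F] Polynomial (MvPolynomial (Vars n M k) F) :=
  aeval (fun v => if v = Sum.inr (Sum.inl j) then Polynomial.X else Polynomial.C (X v))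

lemma theta_X_self (j : Fin M) :
    theta F (n := n) (k := k) j (X (Sum.inr (Sum.inl j))) = Polynomial.X := by
  unfold theta
  rw [aeval_X, if_pos rfl]

lemma theta_X_ne (j : Fin M) (v : Vars n M k) (hv : v ≠ Sum.inr (Sum.inl j)) :
    theta F j (X v) = Polynomial.C (X v) := by
  unfold theta
  rw [aeval_X, if_neg hv]

lemma theta_big_self (β : Fin n → Fin M) (j : Fin M) (i : Fin n) (h : β i = j) :
    theta F (k := k) j (big F β i) = gen (fun l : Fin k => X (Sum.inl l)) ((i : ℕ) + 1) := by
  subst h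
  unfold big gen
  rw [map_sum]
  refine Finset.sum_congr rfl fun l _ => ?_
  rw [map_mul, map_pow, theta_X_self, theta_X_ne _ _ _ (by simp)]

lemma theta_big_ne (β : Fin n → Fin M) (j : Fin M) (i : Fin n) (h : β i ≠ j) :
    theta F (k := k) j (big F β i) = Polynomial.C (big F β i) := by
  unfold big
  rw [map_sum, map_sum]
  refine Finset.sum_congr rfl fun l _ => ?_
  rw [map_mul, map_pow, theta_X_ne _ _ _ (by simp), theta_X_ne _ _ _ (by simpa using h), map_mul,
    map_pow]

lemma theta_asg (β : Fin n → Fin M) (j : Fin M) (i : Fin n) :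
    theta F (k := k) j (asg F β ((j : ℕ) + 1) i) =
      if β i = j then gen (fun l : Fin k => X (Sum.inl l)) ((i : ℕ) + 1)
      else Polynomial.C (asg F β j i) := by
  unfold asg
  by_cases h : β i = j
  · have h1 : (β i : ℕ) < (j : ℕ) + 1 := by rw [h]; omega
    rw [if_pos h, if_pos h1, theta_big_self F β j i h]
  · have h2 : (β i : ℕ) ≠ (j : ℕ) := fun h' => h (Fin.ext h')
    rw [if_neg h]
    by_cases h3 : (β i : ℕ) < (j : ℕ)
    · rw [if_pos h3, if_pos (by omega), theta_big_ne F β j i h]
    · rw [if_neg h3, if_neg (by omega), theta_X_ne _ _ _ (by simp)]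

variable [CharZero F]

/-- all blocks -/
theorem chain_blocks (hk : 2 ≤ k) (β : Fin n → Fin M) (E : Expr F n)
    (hβ : ∀ j : Fin M, 5 * occ (fun i => β i = j) E ≤ k ∨ ∃ i₀, β i₀ = j ∧ ∀ i, β i = j → i = i₀)
    (hE : ev (fun i => (X i : MvPolynomial (Fin n) F)) E ≠ 0) (j : ℕ) (hj : j ≤ M) :
    ev (asg F (k := k) β j) E ≠ 0 := by
  classical
  induction j with
  | zero =>
    have h1 : ev (asg F (k := k) β 0) E = rename (fun i : Fin n => (Sum.inr (Sum.inr i) :
        Vars n M k)) (ev (fun i => (X i : MvPolynomial (Fin n) F)) E) := by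
      rw [map_ev]
      apply ev_congr
      intro i _
      rw [rename_X]
      unfold asg
      simp
    rw [h1]
    intro h2
    apply hE
    have hinj : Function.Injective (fun i : Fin n => (Sum.inr (Sum.inr i) : Vars n M k)) := by
      intro a b hab
      simpa using hab
    exact rename_injective _ hinj (h2.trans (map_zero _).symm)
  | succ j ih =>
    have ih' := ih (by omega)
    have hjM : j < M := by omega
    let D : Fin k → Derivation F (MvPolynomial (Vars n M k) F) (MvPolynomial (Vars n M k) F) :=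
      fun l => pderiv (Sum.inl l)
    have hDy : ∀ l m, D l (X (Sum.inl m)) = if l = m then 1 else 0 := by
      intro l m
      change pderiv (Sum.inl l) (X (Sum.inl m)) = _
      rw [pderiv_X]
      by_cases h : l = m
      · subst h
        simp
      · rw [if_neg h, Pi.single_eq_of_ne]
        intro h'
        exact h (Sum.inl_injective h'.symm)
    have key : ev (fun i => if β i = (⟨j, hjM⟩ : Fin M) then
        gen (fun l : Fin k => (X (Sum.inl l) : MvPolynomial (Vars n M k) F)) ((i : ℕ) + 1)
        else Polynomial.C (asg F β j i)) E ≠ 0 := by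
      rcases hβ ⟨j, hjM⟩ with h | ⟨i₀, h1, h2⟩
      · exact step_multi D _ hDy (fun i => (i : ℕ) + 1) (fun i => Nat.succ_pos _)
          (fun a b hab => Fin.ext (by simpa using hab)) (fun i => β i = ⟨j, hjM⟩) E _ ih' h
      · exact step_single D _ hDy hk (fun i => (i : ℕ) + 1) (fun i => Nat.succ_pos _)
          (fun i => β i = ⟨j, hjM⟩) E _ ih' i₀ h1 (fun i hi _ => h2 i hi)
    intro h0
    apply key
    have h3 := map_ev (theta F (n := n) (k := k) (⟨j, hjM⟩ : Fin M)) (asg F β (j + 1)) E
    rw [h0, map_zero] at h3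
    rw [h3]
    apply ev_congr
    intro i _
    exact (theta_asg F β ⟨j, hjM⟩ i).symm

end

section degree

variable {F : Type*} [Field F] {n : ℕ}

lemma degreeOf_ev {V : Type*} (v : V) (ρ : Fin n → MvPolynomial V F) (d : ℕ)
    (hd : ∀ i, degreeOf v (ρ i) ≤ d) (E : Expr F n) :
    degreeOf v (ev ρ E) ≤ occ (fun _ => True) E * d := by
  induction E with
  | const c =>
    have : ev ρ (Expr.const c) = C c := rfl
    rw [this, degreeOf_C]
    exact Nat.zero_le _
  | var i =>
    simp only [ev, occ, if_true, one_mul]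
    exact hd i
  | add a b iha ihb =>
    simp only [ev, occ, add_mul]
    refine (degreeOf_add_le _ _ _).trans (max_le ?_ ?_)
    · exact iha.trans (Nat.le_add_right _ _)
    · exact ihb.trans (Nat.le_add_left _ _)
  | sub a b iha ihb =>
    simp only [ev, occ, add_mul]
    rw [sub_eq_add_neg]
    refine (degreeOf_add_le _ _ _).trans (max_le ?_ ?_)
    · exact iha.trans (Nat.le_add_right _ _)
    · rw [show degreeOf v (-(ev ρ b)) = degreeOf v (ev ρ b) by
        unfold degreeOf
        rw [degrees_neg]]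
      exact ihb.trans (Nat.le_add_left _ _)
  | mul a b iha ihb =>
    simp only [ev, occ, add_mul]
    exact (degreeOf_mul_le _ _ _).trans (add_le_add iha ihb)

lemma degreeOf_big {M k : ℕ} (β : Fin n → Fin M) (i : Fin n) (v : Vars n M k) :
    degreeOf v (big F (k := k) β i) ≤ n * k := by
  unfold big
  refine (degreeOf_sum_le _ _ _).trans (Finset.sup_le fun l _ => ?_)
  refine (degreeOf_mul_le _ _ _).trans ?_
  have h1 : degreeOf v (X (Sum.inl l) : MvPolynomial (Vars n M k) F) ≤ 1 := by
    classical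
    rw [degreeOf_X]
    split_ifs <;> omega
  have h2 : degreeOf v ((X (Sum.inr (Sum.inl (β i))) : MvPolynomial (Vars n M k) F) ^
      (((i : ℕ) + 1) * (l : ℕ))) ≤ ((i : ℕ) + 1) * (l : ℕ) := by
    refine (degreeOf_pow_le _ _ _).trans ?_
    have : degreeOf v (X (Sum.inr (Sum.inl (β i))) : MvPolynomial (Vars n M k) F) ≤ 1 := by
      classical
      rw [degreeOf_X]
      split_ifs <;> omega
    calc (((i : ℕ) + 1) * (l : ℕ)) * degreeOf v (X (Sum.inr (Sum.inl (β i))) :
          MvPolynomial (Vars n M k) F) ≤ (((i : ℕ) + 1) * (l : ℕ)) * 1 :=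
          Nat.mul_le_mul_left _ this
      _ = _ := mul_one _
  have h3 : ((i : ℕ) + 1) * (l : ℕ) + 1 ≤ n * k := by
    have hi : (i : ℕ) + 1 ≤ n := i.2
    have hl : (l : ℕ) + 1 ≤ k := l.2
    calc ((i : ℕ) + 1) * (l : ℕ) + 1 ≤ ((i : ℕ) + 1) * ((l : ℕ) + 1) := by
          rw [mul_add]; omega
      _ ≤ n * k := Nat.mul_le_mul hi hl
  omega

end degree

end Pool.Agent.J6H7.PIT
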