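import Mathlib
import Pool.Agent.J6H7.PIT.Hit

/-!
# The explicit hitting set, indexed by natural numbers
-/

set_option autoImplicit false

namespace Pool.Agent.J6H7.PIT

open Finset Pool.Agent.J6H7.PIT.Expr MvPolynomial

/-- the digit of `r` in the base `B` at the position `j` -/
def dig (B r j : ℕ) : ℕ := r / B ^ j % B

/-- the number of the block of the variable number `i`: the number of the breakpoints `≤ i`;
the breakpoints are the digits at the positions `7 t, …, 9 t - 2` -/
def blockOf (t B r i : ℕ) : ℕ := ((range (2 * t - 1)).filter fun j => dig B r (7 * t + j) ≤ i).card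

/-- the value of the variable number `i`: `∑_{l < 5 t} y_l z ^ ((i + 1) l)`, with the digits
`y_l` at the positions `0, …, 5 t - 1` and the digit `z` at the position `5 t + blockOf t B r i` -/
def coord (t B r i : ℕ) : ℕ :=
  ∑ l ∈ range (5 * t), dig B r l * dig B r (5 * t + blockOf t B r i) ^ ((i + 1) * l)

/-- the base -/
def base (n t s : ℕ) : ℕ := s * (n * (5 * t)) + n + 1

lemma dig_lt {B r j : ℕ} (hB : 0 < B) : dig B r j < B := Nat.mod_lt _ hB

lemma exists_digits (B N : ℕ) (f : ℕ → ℕ) (hf : ∀ j, j < N → f j < B) :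
    ∃ r < B ^ N, ∀ j, j < N → dig B r j = f j := by
  let g : Fin N → Fin B := fun j => ⟨f j, hf j j.2⟩
  refine ⟨finFunctionFinEquiv g, (finFunctionFinEquiv g).2, fun j hj => ?_⟩
  have h := congrFun (finFunctionFinEquiv.symm_apply_apply g) ⟨j, hj⟩
  have h2 := congrArg Fin.val h
  exact h2

variable {F : Type*} [Field F] [CharZero F] {n : ℕ}

theorem exists_index (t s : ℕ) (ht : 0 < t) (hst : s < t * t) (E : Expr F n)
    (hs : occ (fun _ => True) E ≤ s)
    (hE : ev (fun i => (X i : MvPolynomial (Fin n) F)) E ≠ 0) :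
    ∃ r < base n t s ^ (9 * t), ev (fun i => ((coord t (base n t s) r i : ℕ) : F)) E ≠ 0 := by
  classical
  obtain ⟨b, z, y, hz, hy, h⟩ := exists_point t s ht hst E hs hE
  set B := base n t s with hB
  have hB' : B = s * (n * (5 * t)) + n + 1 := rfl
  let f : ℕ → ℕ := fun j =>
    if h1 : j < 5 * t then y ⟨j, h1⟩
    else if h2 : j - 5 * t < 2 * t - 1 + 1 then z ⟨j - 5 * t, h2⟩
    else if h3 : j - 7 * t < 2 * t - 1 then b ⟨j - 7 * t, h3⟩ else 0
  have hf : ∀ j, j < 9 * t → f j < B := by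
    intro j _
    simp only [f]
    split_ifs with h1 h2 h3
    · have := hy ⟨j, h1⟩; omega
    · have := hz ⟨j - 5 * t, h2⟩; omega
    · have := (b ⟨j - 7 * t, h3⟩).2; omega
    · omega
  obtain ⟨r, hr, hrd⟩ := exists_digits B (9 * t) f hf
  refine ⟨r, hr, ?_⟩
  have hblk : ∀ i : Fin n, blockOf t B r i = blk b i := by
    intro i
    unfold blockOf blk
    simp only
    rw [← Finset.card_map (Fin.valEmbedding (n := 2 * t - 1))]
    congr 1
    ext j
    simp only [Finset.mem_filter, Finset.mem_range, Finset.mem_map, Finset.mem_univ, true_and,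
      Fin.valEmbedding_apply]
    have hj : ∀ hj : j < 2 * t - 1, dig B r (7 * t + j) = b ⟨j, hj⟩ := by
      intro hj
      rw [hrd _ (by omega)]
      simp only [f]
      rw [dif_neg (by omega), dif_neg (by omega), dif_pos (by omega)]
      congr 2
      exact Fin.ext (by simp)
    constructor
    · rintro ⟨h1, h2⟩
      rw [hj h1] at h2
      exact ⟨⟨j, h1⟩, h2, rfl⟩
    · rintro ⟨a, h1, rfl⟩
      exact ⟨a.2, by rw [hj a.2]; exact h1⟩
  have hcoord : ∀ i : Fin n, coord t B r i = pt b z y i := by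
    intro i
    unfold coord pt
    rw [Finset.sum_range]
    refine Finset.sum_congr rfl fun l _ => ?_
    rw [hblk i, hrd _ (by omega), hrd (5 * t + _) (by
      have := (blk b i).2
      omega)]
    have h1 : f l = y l := by
      simp only [f]
      rw [dif_pos l.2]
    have h2 : f (5 * t + (blk b i : ℕ)) = z (blk b i) := by
      simp only [f]
      have := (blk b i).2
      rw [dif_neg (by omega), dif_pos (by omega)]
      congr 1
      exact Fin.ext (by simp)
    rw [h1, h2]
  have : (fun i : Fin n => ((coord t B r i : ℕ) : F)) = fun i => ((pt b z y i : ℕ) : F) := by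
    funext i
    rw [hcoord]
  rw [this]
  exact h

lemma coord_le (t B r i : ℕ) (hB : 0 < B) :
    coord t B r i ≤ 5 * t * (B * B ^ ((i + 1) * (5 * t))) := by
  unfold coord
  refine (Finset.sum_le_card_nsmul _ _ (B * B ^ ((i + 1) * (5 * t))) fun l hl => ?_).trans ?_
  · have hl' : l < 5 * t := Finset.mem_range.1 hl
    refine Nat.mul_le_mul (dig_lt hB).le ?_
    refine (Nat.pow_le_pow_left (dig_lt hB).le _).trans ?_
    exact Nat.pow_le_pow_right hB (Nat.mul_le_mul_left _ hl'.le)
  · rw [Finset.card_range, smul_eq_mul]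

lemma base_le (n s : ℕ) : base n (Nat.sqrt s + 1) s ≤ ((n + 1) * (s + 1)) ^ 4 := by
  unfold base
  have h1 : Nat.sqrt s ≤ s := Nat.sqrt_le_self s
  have h2 : s * (n * (5 * (Nat.sqrt s + 1))) + n + 1 ≤ (n + 1) * (5 * s * (s + 1) + 1) := by
    have : s * (n * (5 * (Nat.sqrt s + 1))) ≤ s * (n * (5 * (s + 1))) :=
      Nat.mul_le_mul_left _ (Nat.mul_le_mul_left _ (Nat.mul_le_mul_left _ (by omega)))
    calc s * (n * (5 * (Nat.sqrt s + 1))) + n + 1 ≤ s * (n * (5 * (s + 1))) + n + 1 := by omega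
      _ = n * (5 * s * (s + 1) + 1) + 1 := by ring
      _ ≤ n * (5 * s * (s + 1) + 1) + (5 * s * (s + 1) + 1) := by omega
      _ = (n + 1) * (5 * s * (s + 1) + 1) := by ring
  refine h2.trans ?_
  rw [mul_pow]
  refine Nat.mul_le_mul (Nat.le_self_pow (by norm_num) _) ?_
  have h3 : (s + 1) ^ 4 = 5 * s * (s + 1) + 1 + (s ^ 4 + 4 * s ^ 3 + s ^ 2) - s := by
    have : (s + 1) ^ 4 = s ^ 4 + 4 * s ^ 3 + 6 * s ^ 2 + 4 * s + 1 := by ring
    have h4 : 5 * s * (s + 1) + 1 + (s ^ 4 + 4 * s ^ 3 + s ^ 2) =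
        s ^ 4 + 4 * s ^ 3 + 6 * s ^ 2 + 4 * s + 1 + s := by ring
    omega
  have h5 : s ≤ s ^ 2 := by nlinarith [Nat.zero_le s]
  omega

end Pool.Agent.J6H7.PIT
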