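import Pool.Agent.Y644.QS.Quasi
set_option autoImplicit false

/-!
# Time `2 ^ (C (√L + 1) (log₂ L + 1))`
-/

namespace Pool.Agent.J6H7.PIT

open Turing

/-- A language is decided in time `2 ^ O(√N log N)`: for some constant `C`, some deterministic
Turing machine (in the sense of Mathlib) outputs `[true]` exactly on the words of the language, with
the time bound `2 ^ (C (⌊√N⌋ + 1) (⌊log₂ N⌋ + 1))` on inputs of length `N`. -/
def InSqrtExpTime (L : Set (List Bool)) : Prop :=
  ∃ (V : List Bool → List Bool)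
    (M : TM2ComputableInTime (id : List Bool → List Bool) (id : List Bool → List Bool) V) (C : ℕ),
    (∀ x, x ∈ L ↔ V x = [true]) ∧
    ∀ N, M.time N ≤ 2 ^ (C * ((Nat.sqrt N + 1) * (Nat.log 2 N + 1)))

end Pool.Agent.J6H7.PIT

namespace Pool.Agent.NPC.J6H7

open Pool.Agent.Y644.QS Pool.Agent.J6H7.PIT Pool.Agent.NPC.Y644

/-- the bound -/
def SB (h : ℕ → ℕ) : Prop := ∃ k, ∀ L, h L ≤ 2 ^ (k * ((Nat.sqrt L + 1) * (Nat.log 2 L + 1)))

theorem SB.mono {h h' : ℕ → ℕ} (hh : SB h) (hle : ∀ L, h' L ≤ h L) : SB h' := by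
  obtain ⟨k, hk⟩ := hh
  exact ⟨k, fun L => (hle L).trans (hk L)⟩

theorem SB.pow {h : ℕ → ℕ} (hh : SB h) (c : ℕ) : SB (fun L => h L ^ c) := by
  obtain ⟨k, hk⟩ := hh
  refine ⟨k * c, fun L => ?_⟩
  calc h L ^ c ≤ (2 ^ (k * ((Nat.sqrt L + 1) * (Nat.log 2 L + 1)))) ^ c :=
        Nat.pow_le_pow_left (hk L) c
    _ = _ := by rw [← pow_mul]; congr 1; ring

theorem SB.add {h g : ℕ → ℕ} (hh : SB h) (hg : SB g) : SB (fun L => h L + g L) := by
  obtain ⟨k, hk⟩ := hh
  obtain ⟨l, hl⟩ := hg
  refine ⟨k + l + 1, fun L => ?_⟩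
  set z := (Nat.sqrt L + 1) * (Nat.log 2 L + 1) with hz
  have hz1 : 1 ≤ z := Nat.mul_pos (Nat.succ_pos _) (Nat.succ_pos _)
  have h1 : 2 ^ (k * z) ≤ 2 ^ ((k + l) * z) := Nat.pow_le_pow_right (by norm_num) (by nlinarith)
  have h2 : 2 ^ (l * z) ≤ 2 ^ ((k + l) * z) := Nat.pow_le_pow_right (by norm_num) (by nlinarith)
  calc h L + g L ≤ 2 ^ ((k + l) * z) + 2 ^ ((k + l) * z) :=
        Nat.add_le_add ((hk L).trans h1) ((hl L).trans h2)
    _ = 2 ^ ((k + l) * z + 1) := by rw [pow_succ]; ring
    _ ≤ 2 ^ ((k + l + 1) * z) := Nat.pow_le_pow_right (by norm_num) (by nlinarith)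

theorem SB.mul {h g : ℕ → ℕ} (hh : SB h) (hg : SB g) : SB (fun L => h L * g L) := by
  obtain ⟨k, hk⟩ := hh
  obtain ⟨l, hl⟩ := hg
  refine ⟨k + l, fun L => ?_⟩
  rw [add_mul, pow_add]
  exact Nat.mul_le_mul (hk L) (hl L)

theorem SB.const (c : ℕ) : SB (fun _ => c) := by
  refine ⟨c, fun L => ?_⟩
  have h1 : 1 ≤ (Nat.sqrt L + 1) * (Nat.log 2 L + 1) :=
    Nat.mul_pos (Nat.succ_pos _) (Nat.succ_pos _)
  exact (Nat.lt_two_pow_self).le.trans (Nat.pow_le_pow_right (by norm_num) (by nlinarith))

theorem SB.id : SB (fun L => L) := by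
  refine ⟨2, fun L => ?_⟩
  have h := le_log L
  refine le_trans (show L ≤ L + 2 by omega) (h.trans (Nat.pow_le_pow_right (by norm_num) ?_))
  nlinarith [Nat.zero_le (Nat.sqrt L * Nat.log 2 L), Nat.zero_le (Nat.sqrt L),
    Nat.zero_le (Nat.log 2 L)]

theorem SB.poly {h : ℕ → ℕ} (hh : SB h) (p : Polynomial ℕ) : SB (fun L => p.eval (h L)) := by
  obtain ⟨c, hc⟩ := poly_eval_le p
  exact ((hh.add (SB.const 2)).pow c).mono fun L => hc (h L)

/-- one doubling step of the padding -/
def dblStep (s : List Bool × List Unit) : List Bool × List Unit := (s.1, s.2 ++ s.2)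

theorem poly_dblStep : Poly dblStep := by
  unfold dblStep
  fun_prop

theorem dblStep_iter (x : List Bool) (n k : ℕ) :
    dblStep^[k] (x, List.replicate n ()) = (x, List.replicate (2 ^ k * n) ()) := by
  induction k with
  | zero => simp
  | succ k ih =>
    rw [Function.iterate_succ_apply', ih, dblStep]
    simp only [Prod.mk.injEq, true_and]
    rw [← List.replicate_add]
    congr 1
    ring

/-- A polynomial-time test of an input padded to the length `2 ^ sz (u x)`, where the list `u x` has
at most `c (√N + 1) (log₂ N + 1)` elements, decides a language in time `2 ^ O(√N log N)`. -/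
theorem sqrt_main {L : Set (List Bool)} {u : List Bool → List Unit} (hu : Poly u) (c : ℕ)
    (hc : ∀ x, (u x).length ≤ c * ((Nat.sqrt x.length + 1) * (Nat.log 2 x.length + 1)))
    {g : List Bool × List Unit → Bool} (hg : Poly g)
    (hL : ∀ x, x ∈ L ↔ g (x, List.replicate (2 ^ sz (u x)) ()) = true) : InSqrtExpTime L := by
  -- the program
  have h1 : PC (fun x : List Bool => x) T.enc (fun x => T.node (toT (u x)) (toT (x, [()]))) := by
    have h2 : Poly (fun x : List Bool => (x, [()])) := by fun_prop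
    have h4 : PC (bits : List Bool → List Bool) T.enc (fun x => T.node (toT (u x))
      (toT (x, [()]))) := PC.node hu h2
    exact PC.comp (g := fun x => T.node (toT (u x)) (toT (x, [()]))) (f := fun x => x) h4 PC.rawIn
  have h3 : PC (bits : List Bool × List Unit → List Bool) (fun x : List Bool => x)
      (fun s => [g s]) := PC.comp (g := fun b => [b]) (f := g) PC.rawBool hg
  obtain ⟨u', hu'⟩ := h1.length_le
  obtain ⟨c1, r1, hc1⟩ := h1
  obtain ⟨c2, r2, hc2⟩ := poly_dblStep
  obtain ⟨c3, r3, hc3⟩ := h3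
  have hxsz : ∀ x : List Bool, sz x ≤ 4 * x.length + 1 := fun x => sz_listBool_le x
  have husz : ∀ x, sz (u x) = 2 * (u x).length + 1 := fun x => by
    have : u x = List.replicate (u x).length () := by
      rw [List.eq_replicate_iff]
      exact ⟨rfl, fun _ _ => rfl⟩
    rw [this, sz_replicate, List.length_replicate]
  -- bound for the sizes
  set Bf : ℕ → ℕ := fun N => (4 * N + 1) +
    (2 * 2 ^ (2 * (c * ((Nat.sqrt N + 1) * (Nat.log 2 N + 1))) + 1) + 1) + 1 with hBf
  have hBQ : SB Bf := by
    have e2 : SB (fun N => 2 ^ (2 * (c * ((Nat.sqrt N + 1) * (Nat.log 2 N + 1))) + 1)) := by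
      refine ⟨2 * c + 1, fun N => Nat.pow_le_pow_right (by norm_num) ?_⟩
      have hz1 : 1 ≤ (Nat.sqrt N + 1) * (Nat.log 2 N + 1) :=
        Nat.mul_pos (Nat.succ_pos _) (Nat.succ_pos _)
      nlinarith
    exact (((((SB.const 4).mul SB.id).add (SB.const 1)).add
      (((SB.const 2).mul e2).add (SB.const 1))).add (SB.const 1))
  have hsize : ∀ x : List Bool, ∀ k ≤ sz (u x), (bits (dblStep^[k] (x, [()]))).length ≤
      Bf x.length := by
    intro x k hk
    have e0 : ([()] : List Unit) = List.replicate 1 () := rfl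
    rw [e0, dblStep_iter, bits_length, sz_pair, sz_replicate]
    have e1 := hxsz x
    have e2 := hc x
    have e3 : 2 ^ k * 1 ≤ 2 ^ (2 * (c * ((Nat.sqrt x.length + 1) * (Nat.log 2 x.length + 1))) + 1)
        := by
      rw [mul_one]
      apply Nat.pow_le_pow_right (by norm_num)
      rw [husz] at hk
      omega
    simp only [hBf]
    omega
  set prog := Cmd.seq c1 (Cmd.seq split (Cmd.seq (Cmd.loop 1 (Cmd.seq (Cmd.pop 1) (ev c2))) c3))
    with hprog
  set time : ℕ → ℕ := fun N => r1.eval N + ((5 * u'.eval N + 3) +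
    (((r2.eval (Bf N) + 2) * u'.eval N + 1) + r3.eval (Bf N))) with htime
  have htQ : SB time := by
    have e1 := hBQ.poly r2
    have e2 := hBQ.poly r3
    have e3 := SB.id.poly r1
    have e4 := SB.id.poly u'
    exact e3.add ((((SB.const 5).mul e4).add (SB.const 3)).add
      ((((e1.add (SB.const 2)).mul e4).add (SB.const 1)).add e2))
  have hrun : ∀ x : List Bool, Runs prog (inp x)
      (inp [g (x, List.replicate (2 ^ sz (u x)) ())]) (time x.length) := by
    intro x
    have a1 := hc1 x
    have a2 := split_runs (toT (u x)) (toT (x, [()]))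
    have a3 := loop_runs (eb := bits) (f := dblStep) hc2 (Bf x.length) (toT (u x)).enc.reverse
      (x, [()]) (fun k hk => hsize x k (by
        rw [List.length_reverse] at hk
        exact hk))
    have e0 : dblStep^[(toT (u x)).enc.reverse.length] (x, [()]) =
        (x, List.replicate (2 ^ sz (u x)) ()) := by
      have e1 : ([()] : List Unit) = List.replicate 1 () := rfl
      rw [e1, dblStep_iter, List.length_reverse, mul_one]
      rfl
    rw [e0] at a3
    have a4 := hc3 (x, List.replicate (2 ^ sz (u x)) ())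
    rw [inp_eq_st, inp_eq_st] at a1 a4
    rw [inp_eq_st, inp_eq_st]
    refine (a1.seq (a2.seq (a3.seq a4))).mono ?_
    simp only [htime]
    have b1 : (toT (u x)).size ≤ u'.eval x.length := by
      have := hu' x
      simp only [T.enc, List.length_cons, List.length_append] at this
      unfold T.size
      omega
    have b2 : (bits (x, List.replicate (2 ^ sz (u x)) ())).length ≤ Bf x.length := by
      have := hsize x (sz (u x)) le_rfl
      have e1 : ([()] : List Unit) = List.replicate 1 () := rfl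
      rw [e1, dblStep_iter, mul_one] at this
      exact this
    have b3 := eval_mono r3 b2
    have b4 : (toT (u x)).enc.reverse.length ≤ u'.eval x.length := by
      rw [List.length_reverse]; exact b1
    have b5 := Nat.mul_le_mul_left (r2.eval (Bf x.length) + 2) b4
    omega
  -- the machine
  have gen : ∀ (x w : List Bool) (t : ℕ), Run prog (inp x) (inp w) t →
      Nonempty (Turing.TM2OutputsInTime (prog.map (Fin.ofNat (prog.bd + 1))).toTM x
        (some w) (t + 1)) := by
    intro x w t hr
    have h1 := hr.restrict (n := prog.bd) (by omega)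
    refine toTM_outputs ?_
    convert! h1 using 1
    · funext i
      by_cases hi : i = 0
      · subst hi; simp [inp]
      · have : (i : ℕ) ≠ 0 := fun h => hi (Fin.ext h)
        simp [inp, hi, this]
    · funext i
      by_cases hi : i = 0
      · subst hi; simp [inp]
      · have : (i : ℕ) ≠ 0 := fun h => hi (Fin.ext h)
        simp [inp, hi, this]
  have key : ∀ x : List Bool, ∃ t, t ≤ time x.length + 1 ∧
      Nonempty (Turing.TM2OutputsInTime (prog.map (Fin.ofNat (prog.bd + 1))).toTM x
        (some [g (x, List.replicate (2 ^ sz (u x)) ())]) t) := by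
    intro x
    obtain ⟨t, ht, hr⟩ := hrun x
    exact ⟨t + 1, by omega, gen x _ t hr⟩
  have hT := htQ.add (SB.const 1)
  obtain ⟨C, hC⟩ := hT
  refine ⟨fun x => [g (x, List.replicate (2 ^ sz (u x)) ())],
    { tm := (prog.map (Fin.ofNat (prog.bd + 1))).toTM
      inputAlphabet := Equiv.refl Bool
      outputAlphabet := Equiv.refl Bool
      time := fun L => time L + 1
      outputsFun := ?_ }, C, fun x => ?_, fun N => hC N⟩
  · intro x
    have hx := key x
    have ht := hx.choose_spec.1
    have hm := hx.choose_spec.2.some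
    exact outputs_conv (List.map_id x).symm (List.map_id _).symm ht hm
  · rw [hL]
    simp

end Pool.Agent.NPC.J6H7
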