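import Pool.Agent.J6H7.PIT.Point
import Pool.Agent.J6H7.PIT.Machine
import Pool.Agent.J6H25.PIT.Dec

set_option autoImplicit false

/-!
# The test for arithmetic expressions on Turing machines
-/

namespace Pool.Agent.J6H7.PIT

open Pool.Agent.NPC Pool.Agent.J6H25.PIT

/-! ### From `Ex` to `Expr` -/

/-- evaluation in an algebra -/
noncomputable def aev {A : Type} [CommRing A] [Algebra ℚ A] (ρ : ℕ → A) : Ex → A
  | Ex.var i => ρ i
  | Ex.num q => algebraMap ℚ A q
  | Ex.op o s t => o.ap (aev ρ s) (aev ρ t)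

/-- renaming of the variables -/
def conv {n : ℕ} (f : ℕ → Fin n) : Ex → Expr ℚ n
  | Ex.var i => Expr.var (f i)
  | Ex.num q => Expr.const q
  | Ex.op Op.add s t => Expr.add (conv f s) (conv f t)
  | Ex.op Op.sub s t => Expr.sub (conv f s) (conv f t)
  | Ex.op Op.mul s t => Expr.mul (conv f s) (conv f t)

theorem ev_conv {A : Type} [CommRing A] [Algebra ℚ A] {n : ℕ} (f : ℕ → Fin n) (ρ : Fin n → A)
    (E : Ex) : (conv f E).ev ρ = aev (fun i => ρ (f i)) E := by
  induction E with
  | var i => rfl
  | num q => rfl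
  | op o s t ihs iht => cases o <;> simp only [conv, Expr.ev, aev, Op.ap, ihs, iht]

theorem aev_poly (E : Ex) : aev (fun i => (MvPolynomial.X i : MvPolynomial ℕ ℚ)) E = E.poly := by
  induction E with
  | var i => rfl
  | num q => rfl
  | op o s t ihs iht => simp only [aev, Ex.poly, ihs, iht]

theorem aev_eval (x : ℕ → ℚ) (E : Ex) : aev x E = E.eval x := by
  induction E with
  | var i => rfl
  | num q => simp [aev, Ex.eval]
  | op o s t ihs iht => simp only [aev, Ex.eval, ihs, iht]

theorem aev_congr {A : Type} [CommRing A] [Algebra ℚ A] {ρ ρ' : ℕ → A} {E : Ex}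
    (h : ∀ i ∈ E.vlist, ρ i = ρ' i) : aev ρ E = aev ρ' E := by
  induction E with
  | var i => exact h i (by simp [Ex.vlist])
  | num q => rfl
  | op o s t ihs iht =>
    simp only [aev]
    rw [ihs fun i hi => h i (by simp [Ex.vlist, hi]), iht fun i hi => h i (by simp [Ex.vlist, hi])]

theorem occ_conv {n : ℕ} (f : ℕ → Fin n) (E : Ex) :
    (conv f E).occ (fun _ => True) = E.vlist.length := by
  induction E with
  | var i => simp [conv, Expr.occ, Ex.vlist]
  | num q => simp [conv, Expr.occ, Ex.vlist]
  | op o s t ihs iht => cases o <;> simp [conv, Expr.occ, Ex.vlist, ihs, iht]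

/-- the number of the variable: its first position in the list of the variable leaves -/
def num (E : Ex) (i : ℕ) : Fin (E.vlist.length + 1) :=
  ⟨E.vlist.idxOf i, Nat.lt_succ_of_le List.idxOf_le_length⟩

theorem conv_ne {E : Ex} (hE : E.poly ≠ 0) :
    (conv (num E) E).ev (fun i => (MvPolynomial.X i : MvPolynomial (Fin (E.vlist.length + 1)) ℚ)) ≠
      0 := by
  intro h
  apply hE
  let φ : MvPolynomial (Fin (E.vlist.length + 1)) ℚ →ₐ[ℚ] MvPolynomial ℕ ℚ :=
    MvPolynomial.aeval fun i => MvPolynomial.X (E.vlist.getD i 0)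
  have h1 := Expr.map_ev φ (fun i => (MvPolynomial.X i :
    MvPolynomial (Fin (E.vlist.length + 1)) ℚ)) (conv (num E) E)
  rw [h, map_zero] at h1
  rw [← aev_poly]
  have h2 : aev (fun i => (MvPolynomial.X i : MvPolynomial ℕ ℚ)) E =
      aev (fun i => φ (MvPolynomial.X (num E i))) E := by
    apply aev_congr
    intro i hi
    simp only [φ, MvPolynomial.aeval_X]
    congr 1
    have h3 : (num E i : ℕ) = E.vlist.idxOf i := rfl
    rw [h3]
    have h4 := List.getElem_idxOf (List.idxOf_lt_length_of_mem hi)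
    rw [List.getD_eq_getElem _ _ (List.idxOf_lt_length_of_mem hi), h4]
  rw [h2, ← ev_conv (num E) (fun i => φ (MvPolynomial.X i)) E, ← h1]

/-! ### The points -/

/-- the parameter `t` -/
def tt (E : Ex) : ℕ := Nat.sqrt E.vlist.length + 1

/-- the base -/
def BB (E : Ex) : ℕ := base (E.vlist.length + 1) (tt E) E.vlist.length

/-- the point with the number `r` -/
def pnt (E : Ex) (r : ℕ) (i : ℕ) : ℚ := (coord (tt E) (BB E) r (E.vlist.idxOf i) : ℕ)

theorem poly_ne_iff (E : Ex) :
    E.poly ≠ 0 ↔ ∃ r < BB E ^ (9 * tt E), E.eval (pnt E r) ≠ 0 := by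
  constructor
  · intro hE
    obtain ⟨r, hr, h⟩ := exists_index (tt E) E.vlist.length (Nat.succ_pos _)
      (Nat.lt_succ_sqrt _) (conv (num E) E) (occ_conv _ _).le (conv_ne hE)
    refine ⟨r, hr, ?_⟩
    rw [ev_conv, aev_eval] at h
    exact h
  · rintro ⟨r, _, h⟩ h0
    apply h
    rw [← Ex.eval_poly, h0, map_zero]

/-- the code of the point with the number `r` -/
def asn (E : Ex) (r : ℕ) : Asg :=
  E.vlist.zipIdx.map fun p => (p.1, coord (tt E) (BB E) r p.2)

theorem look_zipIdx (f : ℕ → ℕ) (i : ℕ) : ∀ (l : List ℕ) (k : ℕ),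
    look ((l.zipIdx k).map fun p => (p.1, f p.2)) i =
      if i ∈ l then some (f (l.idxOf i + k)) else none := by
  intro l
  induction l with
  | nil => intro k; simp [look]
  | cons a l ih =>
    intro k
    rw [List.zipIdx_cons, List.map_cons, look_cons, ih]
    by_cases h : a = i
    · subst h
      simp
    · have h' : ¬ i = a := fun h' => h h'.symm
      by_cases h2 : i ∈ l
      · have h3 : l.idxOf i + 1 + k = l.idxOf i + (k + 1) := by ring
        simp [h, h', h2, List.idxOf_cons_ne _ h, h3]
      · simp [h, h', h2]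

theorem look_asn (E : Ex) (r i : ℕ) : look (asn E r) i =
    if i ∈ E.vlist then some (coord (tt E) (BB E) r (E.vlist.idxOf i)) else none := by
  have := look_zipIdx (fun j => coord (tt E) (BB E) r j) i E.vlist 0
  exact this

theorem nz_asn (E : Ex) (r : ℕ) : nz (st (asn E r) E) = true ↔ E.eval (pnt E r) ≠ 0 := by
  rw [nz_iff]
  · unfold Zr
    push Not
    constructor
    · rintro ⟨x, hx, h⟩
      rw [← aev_eval] at h ⊢
      rwa [aev_congr (ρ' := x)]
      intro i hi
      have := hx i (coord (tt E) (BB E) r (E.vlist.idxOf i)) (by rw [look_asn, if_pos hi])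
      rw [this]
      rfl
    · intro h
      refine ⟨pnt E r, fun i v hv => ?_, h⟩
      rw [look_asn] at hv
      split_ifs at hv with hi
      simp only [Option.some.injEq] at hv
      rw [← hv]
      rfl
  · intro i hi
    rw [look_asn] at hi
    split_ifs at hi with h
    rw [Ex.mem_vlist, not_not] at h
    omega

/-! ### Polynomial time -/

section

variable {α : Type} [TEnc α]

@[fun_prop]
theorem poly_dig {B r j : α → ℕ} (hB : Poly B) (hr : Poly r) (hj : UPoly j) :
    Poly (fun a => dig (B a) (r a) (j a)) := by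
  unfold dig
  exact Poly.mod (Poly.div hr (Pool.Agent.NPC.Poly.npow hB hj)) hB

theorem upoly_min {n m : α → ℕ} (hn : Poly n) (hm : UPoly m) :
    UPoly (fun a => min (n a) (m a)) :=
  UPoly.of_le (Poly.min hn hm.toPoly) hm fun _ => min_le_right _ _

/-- the block, as the length of a list -/
theorem blockOf_eq (t B r i : ℕ) : blockOf t B r i =
    ((List.range (2 * t - 1)).filter fun j =>
      decide (dig B r (7 * t + min j (2 * t)) ≤ i)).length := by
  unfold blockOf
  have h : ((List.range (2 * t - 1)).filter fun j =>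
      decide (dig B r (7 * t + min j (2 * t)) ≤ i)) =
      (List.range (2 * t - 1)).filter fun j => decide (dig B r (7 * t + j) ≤ i) := by
    apply List.filter_congr
    intro j hj
    rw [List.mem_range] at hj
    rw [min_eq_left (by omega)]
  rw [h]
  rfl

theorem coord_eq (t B r i : ℕ) : coord t B r i =
    ((List.range (5 * t)).map fun l => dig B r (min l (5 * t)) *
      dig B r (5 * t + min (blockOf t B r i) (2 * t)) ^ ((i + 1) * min l (5 * t))).sum := by
  unfold coord
  have h1 : blockOf t B r i ≤ 2 * t := by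
    unfold blockOf
    refine (Finset.card_filter_le _ _).trans ?_
    rw [Finset.card_range]
    omega
  have h : ((List.range (5 * t)).map fun l => dig B r (min l (5 * t)) *
      dig B r (5 * t + min (blockOf t B r i) (2 * t)) ^ ((i + 1) * min l (5 * t))) =
      (List.range (5 * t)).map fun l => dig B r l *
      dig B r (5 * t + blockOf t B r i) ^ ((i + 1) * l) := by
    apply List.map_congr_left
    intro l hl
    rw [List.mem_range] at hl
    rw [min_eq_left (by omega), min_eq_left h1]
  rw [h]
  rfl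

theorem upoly_sub {n m : α → ℕ} (hn : UPoly n) (hm : Poly m) : UPoly (fun a => n a - m a) :=
  UPoly.of_le (Poly.sub hn.toPoly hm) hn fun _ => Nat.sub_le _ _

theorem poly_blockOf {t B r i : α → ℕ} (ht : UPoly t) (hB : Poly B) (hr : Poly r) (hi : Poly i) :
    Poly (fun a => blockOf (t a) (B a) (r a) (i a)) := by
  refine Poly.congr (f := fun a => ((List.range (2 * t a - 1)).filter fun j =>
      decide (dig (B a) (r a) (7 * t a + min j (2 * t a)) ≤ i a)).length) ?_
    fun _ => (blockOf_eq _ _ _ _).symm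
  have h2 : UPoly (fun a => 2 * t a - 1) := upoly_sub (by fun_prop) (by fun_prop)
  have h3 : UPoly (fun p : α × ℕ => 7 * t p.1 + min p.2 (2 * t p.1)) := by
    refine UPoly.add (by fun_prop) (upoly_min (by fun_prop) (by fun_prop))
  have h4 : Poly (fun p : α × ℕ => dig (B p.1) (r p.1) (7 * t p.1 + min p.2 (2 * t p.1))) :=
    poly_dig (by fun_prop) (by fun_prop) h3
  exact Pool.Agent.NPC.Poly.length (Pool.Agent.NPC.Poly.filter (p := fun a j =>
    decide (dig (B a) (r a) (7 * t a + min j (2 * t a)) ≤ i a)) (UPoly.range h2) (by fun_prop))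

theorem poly_coord {t B r i : α → ℕ} (ht : UPoly t) (hB : Poly B) (hr : Poly r) (hi : UPoly i) :
    Poly (fun a => coord (t a) (B a) (r a) (i a)) := by
  refine Poly.congr (f := fun a => ((List.range (5 * t a)).map fun l =>
      dig (B a) (r a) (min l (5 * t a)) *
      dig (B a) (r a) (5 * t a + min (blockOf (t a) (B a) (r a) (i a)) (2 * t a)) ^
        ((i a + 1) * min l (5 * t a))).sum) ?_
    fun _ => (coord_eq _ _ _ _).symm
  have hi' : Poly i := hi.toPoly
  have h1 : UPoly (fun p : α × ℕ => min p.2 (5 * t p.1)) := upoly_min (by fun_prop) (by fun_prop)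
  have h2 : Poly (fun p : α × ℕ => dig (B p.1) (r p.1) (min p.2 (5 * t p.1))) :=
    poly_dig (by fun_prop) (by fun_prop) h1
  have h3 : Poly (fun a => blockOf (t a) (B a) (r a) (i a)) := poly_blockOf ht hB hr hi'
  have h4 : UPoly (fun a => 5 * t a + min (blockOf (t a) (B a) (r a) (i a)) (2 * t a)) :=
    UPoly.add (by fun_prop) (upoly_min h3 (by fun_prop))
  have h5 : Poly (fun a => dig (B a) (r a)
      (5 * t a + min (blockOf (t a) (B a) (r a) (i a)) (2 * t a))) := poly_dig hB hr h4
  have h6 : Poly (fun p : α × ℕ => dig (B p.1) (r p.1)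
      (5 * t p.1 + min (blockOf (t p.1) (B p.1) (r p.1) (i p.1)) (2 * t p.1))) :=
    h5.comp (Poly.fst Poly.id)
  have h7 : UPoly (fun p : α × ℕ => (i p.1 + 1) * min p.2 (5 * t p.1)) := by fun_prop
  have h8 := Pool.Agent.NPC.Poly.npow h6 h7
  exact Pool.Agent.NPC.Poly.sum (Pool.Agent.NPC.Poly.map (F := fun a l => dig (B a) (r a) (min l (5 * t a)) *
      dig (B a) (r a) (5 * t a + min (blockOf (t a) (B a) (r a) (i a)) (2 * t a)) ^
        ((i a + 1) * min l (5 * t a))) (UPoly.range (by fun_prop)) (Poly.mul h2 h8))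

end

end Pool.Agent.J6H7.PIT
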