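import Pool.Agent.J6H7.PIT.Algo

set_option autoImplicit false

/-!
# The test for arithmetic expressions in time `2 ^ O(√N log N)`
-/

namespace Pool.Agent.J6H7.PIT

open Pool.Agent.NPC Pool.Agent.J6H25.PIT

section

variable {α : Type} [TEnc α]

theorem sqrt_eq (s : ℕ) :
    Nat.sqrt s + 1 = ((List.range (s + 2)).filter fun t => decide (t * t ≤ s)).length := by
  have h : ∀ m, m ≤ Nat.sqrt s + 1 →
      ((List.range m).filter fun t => decide (t * t ≤ s)).length = m := by
    intro m
    induction m with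
    | zero => intro _; rfl
    | succ m ih =>
      intro hm
      rw [List.range_succ, List.filter_append, List.length_append, ih (by omega)]
      have h1 : m * m ≤ s := Nat.le_sqrt.1 (by omega)
      simp [h1]
  have h2 : ∀ d, ((List.range (Nat.sqrt s + 1 + d)).filter fun t => decide (t * t ≤ s)).length =
      Nat.sqrt s + 1 := by
    intro d
    induction d with
    | zero => exact h _ le_rfl
    | succ d ih =>
      rw [← add_assoc, List.range_succ, List.filter_append, List.length_append, ih]
      have h1 : ¬ (Nat.sqrt s + 1 + d) * (Nat.sqrt s + 1 + d) ≤ s := by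
        intro hh
        have := Nat.le_sqrt.2 hh
        omega
      simp [h1]
  have h3 := Nat.sqrt_le_self s
  have h4 := h2 (s + 1 - Nat.sqrt s)
  rw [show Nat.sqrt s + 1 + (s + 1 - Nat.sqrt s) = s + 2 by omega] at h4
  exact h4.symm

theorem upoly_sqrt {s : α → ℕ} (hs : UPoly s) : UPoly (fun a => Nat.sqrt (s a) + 1) := by
  have h1 : UPoly (fun a => ((List.range (s a + 2)).filter fun t => decide (t * t ≤ s a)).length)
      := by
    have hs' : Poly s := hs.toPoly
    exact UPoly.length (Pool.Agent.NPC.Poly.filter (p := fun a t => decide (t * t ≤ s a))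
      (UPoly.range (by fun_prop)) (by fun_prop))
  have h2 : (fun a => Nat.sqrt (s a) + 1) =
      fun a => ((List.range (s a + 2)).filter fun t => decide (t * t ≤ s a)).length := by
    funext a
    exact sqrt_eq (s a)
  rw [h2]
  exact h1

@[fun_prop]
theorem upoly_s {e : α → Ex} (he : Poly e) : UPoly (fun a => (e a).vlist.length) :=
  UPoly.length (by fun_prop)

@[fun_prop]
theorem upoly_tt {e : α → Ex} (he : Poly e) : UPoly (fun a => tt (e a)) :=
  upoly_sqrt (upoly_s he)

@[fun_prop]
theorem upoly_BB {e : α → Ex} (he : Poly e) : UPoly (fun a => BB (e a)) := by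
  unfold BB base
  fun_prop

@[fun_prop]
theorem poly_asn {e : α → Ex} {r : α → ℕ} (he : Poly e) (hr : Poly r) :
    Poly (fun a => asn (e a) (r a)) := by
  have h1 : Poly (fun a => (e a).vlist.zipIdx.map fun p =>
      (p.1, coord (tt (e a)) (BB (e a)) (r a) (min p.2 (e a).vlist.length))) := by
    have hB : Poly (fun p : α × (ℕ × ℕ) => BB (e p.1)) :=
      (upoly_BB (he.comp (Poly.fst Poly.id))).toPoly
    have ht : UPoly (fun p : α × (ℕ × ℕ) => tt (e p.1)) := upoly_tt (he.comp (Poly.fst Poly.id))
    have hi : UPoly (fun p : α × (ℕ × ℕ) => min p.2.2 (e p.1).vlist.length) :=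
      upoly_min (by fun_prop) (upoly_s (he.comp (Poly.fst Poly.id)))
    have h2 := poly_coord ht hB (hr.comp (Poly.fst Poly.id)) hi
    exact Pool.Agent.NPC.Poly.map (F := fun a (p : ℕ × ℕ) =>
      (p.1, coord (tt (e a)) (BB (e a)) (r a) (min p.2 (e a).vlist.length)))
      (Pool.Agent.NPC.Poly.zipIdx (by fun_prop)) (Poly.pair (by fun_prop) h2)
  refine h1.congr fun a => ?_
  unfold asn
  apply List.map_congr_left
  rintro ⟨v, i⟩ hp
  have h2 := List.mem_zipIdx hp
  rw [min_eq_left (by simp only; omega)]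

/-- the test with the padding -/
def srch (p : Ex × List Unit) : Bool :=
  (List.range p.2.length).any fun r => nz (st (asn p.1 r) p.1)

theorem poly_srch : Poly srch := by
  have h1 : Poly (fun q : (Ex × List Unit) × ℕ => q.1.1) := Poly.fst (Poly.fst Poly.id)
  have h2 : Poly (fun q : (Ex × List Unit) × ℕ => q.2) := Poly.snd Poly.id
  have h3 : Poly (fun q : (Ex × List Unit) × ℕ => nz (st (asn q.1.1 q.2) q.1.1)) :=
    poly_nz (poly_st (poly_asn h1 h2) h1)
  have h4 : Poly (fun p : Ex × List Unit => p.2) := Poly.snd Poly.id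
  exact Pool.Agent.NPC.Poly.any (p := fun (p : Ex × List Unit) (r : ℕ) => nz (st (asn p.1 r) p.1))
    (Pool.Agent.NPC.Poly.range_length h4) h3

/-- the length of the padding is `2 ^ sz (upad E)` -/
def upad (E : Ex) : List Unit := List.replicate (9 * tt E * (BB E).bits.length) ()

theorem poly_upad : Poly upad := by
  unfold upad
  have h : UPoly (fun E : Ex => (BB E).bits.length) :=
    UPoly.length (upoly_BB Poly.id).toPoly.natBits
  have h2 : UPoly (fun E : Ex => 9 * tt E * (BB E).bits.length) :=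
    UPoly.mul (UPoly.mul (UPoly.const 9) (upoly_tt Poly.id)) h
  exact Pool.Agent.NPC.Poly.replicateU h2 (Pool.Agent.NPC.Poly.const ())

end

theorem srch_iff (E : Ex) (n : ℕ) (hn : BB E ^ (9 * tt E) ≤ n) :
    srch (E, List.replicate n ()) = true ↔ E.poly ≠ 0 := by
  unfold srch
  simp only [List.any_eq_true, List.mem_range, List.length_replicate, nz_asn]
  rw [poly_ne_iff]
  constructor
  · rintro ⟨r, hr, h⟩
    have h1 : E.poly ≠ 0 := by
      intro h0
      apply h
      rw [← Ex.eval_poly, h0, map_zero]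
    exact (poly_ne_iff E).1 h1
  · rintro ⟨r, hr, h⟩
    exact ⟨r, by omega, h⟩

theorem pad_le (E : Ex) : BB E ^ (9 * tt E) ≤ 2 ^ sz (upad E) := by
  have h1 : sz (upad E) = 2 * (9 * tt E * (BB E).bits.length) + 1 := Pool.Agent.NPC.Y644.sz_replicate _
  have h2 : BB E ≤ 2 ^ (BB E).bits.length := by
    rw [Nat.size_eq_bits_len]
    exact (Nat.lt_size_self _).le
  calc BB E ^ (9 * tt E) ≤ (2 ^ (BB E).bits.length) ^ (9 * tt E) := Nat.pow_le_pow_left h2 _
    _ = 2 ^ (9 * tt E * (BB E).bits.length) := by rw [← pow_mul]; congr 1; ring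
    _ ≤ 2 ^ sz (upad E) := Nat.pow_le_pow_right (by norm_num) (by omega)

theorem upad_length (E : Ex) : (upad E).length ≤
    234 * ((Nat.sqrt (sz E) + 1) * (Nat.log 2 (sz E) + 1)) := by
  unfold upad
  rw [List.length_replicate]
  set s := E.vlist.length with hs
  have h1 : s + 1 ≤ sz E := by
    have := length_lt_sz E.vlist
    have := sz_vlist E
    omega
  have h2 : tt E ≤ Nat.sqrt (sz E) + 1 := by
    have h := Nat.sqrt_le_sqrt (show s ≤ sz E by omega)
    exact Nat.add_le_add_right h 1
  have h3 : BB E ≤ ((s + 1 + 1) * (s + 1)) ^ 4 := base_le (s + 1) s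
  have h4 : sz E < 2 ^ (Nat.log 2 (sz E) + 1) := Nat.lt_pow_succ_log_self (by norm_num) _
  have h5 : BB E < 2 ^ (13 * (Nat.log 2 (sz E) + 1)) := by
    set K := Nat.log 2 (sz E) + 1 with hK
    have hK1 : 1 ≤ K := by omega
    have h6 : s + 1 + 1 ≤ 2 ^ K := by omega
    have h7 : s + 1 ≤ 2 ^ K := by omega
    have h8 : ((s + 1 + 1) * (s + 1)) ^ 4 ≤ (2 ^ K * 2 ^ K) ^ 4 :=
      Nat.pow_le_pow_left (Nat.mul_le_mul h6 h7) 4
    have h9 : (2 ^ K * 2 ^ K) ^ 4 = 2 ^ (8 * K) := by
      rw [← pow_add, ← pow_mul]; congr 1; ring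
    calc BB E ≤ 2 ^ (8 * K) := by rw [← h9]; exact h3.trans h8
      _ < 2 ^ (13 * K) := Nat.pow_lt_pow_right (by norm_num) (by omega)
  have h6 : (BB E).bits.length ≤ 13 * (Nat.log 2 (sz E) + 1) := by
    rw [Nat.size_eq_bits_len]
    exact Nat.size_le.2 h5
  calc 9 * tt E * (BB E).bits.length
      ≤ 9 * (Nat.sqrt (sz E) + 1) * (13 * (Nat.log 2 (sz E) + 1)) :=
        Nat.mul_le_mul (Nat.mul_le_mul_left _ h2) h6
    _ = 117 * ((Nat.sqrt (sz E) + 1) * (Nat.log 2 (sz E) + 1)) := by ring
    _ ≤ _ := Nat.mul_le_mul_right _ (by norm_num)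

/-- **The main result.** -/
theorem nonzero_sqrt : InSqrtExpTime (lang fun E : Ex => E.poly ≠ 0) := by
  have hu : Poly (fun x : List Bool => (unbits Ex x).elim ([] : List Unit) fun E => upad E) :=
    Pool.Agent.NPC.Poly.optElim (g := fun _ => ([] : List Unit)) (h := fun _ E => upad E)
      poly_unbits (Pool.Agent.NPC.Poly.const _) (poly_upad.comp (Poly.snd Poly.id))
  have hg : Poly (fun p : List Bool × List Unit =>
      (unbits Ex p.1).elim false fun E => srch (E, p.2)) :=
    Pool.Agent.NPC.Poly.optElim (o := fun p : List Bool × List Unit => unbits Ex p.1)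
      (g := fun _ => false) (h := fun p E => srch (E, p.2))
      (poly_unbits.comp (Poly.fst Poly.id)) (Pool.Agent.NPC.Poly.const _)
      (poly_srch.comp (Poly.pair (Poly.snd Poly.id) (Poly.snd (Poly.fst Poly.id))))
  refine Pool.Agent.NPC.J6H7.sqrt_main hu 234 ?_ hg ?_
  · intro x
    cases hx : unbits Ex x with
    | none => simp
    | some E =>
      have h1 := bits_of_unbits hx
      have h2 : x.length = sz E := by rw [← h1, bits_length]
      rw [Option.elim_some, h2]
      exact upad_length E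
  · intro x
    rw [mem_lang_iff]
    cases hx : unbits Ex x with
    | none => simp
    | some E =>
      simp only [Option.elim_some]
      rw [srch_iff E _ (pad_le E)]
      simp

end Pool.Agent.J6H7.PIT
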